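import Mathlib

set_option autoImplicit false

/-! Class-preserving automorphisms: the extremal condition `Full`. -/

namespace Pool.Agent.Run7.h179.AC

open Subgroup
open scoped commutatorElement

universe u

/-- the group of the class-preserving automorphisms of `G` -/
def AutC (G : Type*) [Group G] : Subgroup (MulAut G) where
  carrier := {α | ∀ x : G, IsConj x (α x)}
  one_mem' := fun x => IsConj.refl x
  mul_mem' := by
    intro α β hα hβ x
    exact (hβ x).trans (hα (β x))
  inv_mem' := by
    intro α hα x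
    have h := hα (α⁻¹ x)
    rw [MulAut.apply_inv_self] at h
    exact h.symm

theorem mem_AutC {G : Type*} [Group G] {α : MulAut G} : α ∈ AutC G ↔ ∀ x : G, IsConj x (α x) :=
  Iff.rfl

/-- all choices of cosets are realised -/
def FullAt {G : Type*} [Group G] {d : ℕ} (x : Fin d → G) : Prop :=
  ∀ c : Fin d → G, (∀ i, c i ∈ commutator G) → ∃ α ∈ AutC G, ∀ i, α (x i) = c i * x i

/-- all choices of cosets are realised, for all generating tuples -/
def Full (G : Type*) [Group G] (d : ℕ) : Prop :=
  ∀ x : Fin d → G, closure (Set.range x) = ⊤ → FullAt x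

section
variable {G : Type*} [Group G]

theorem comm_mem (a b : G) : ⁅a, b⁆ ∈ commutator G :=
  commutator_mem_commutator (mem_top a) (mem_top b)

theorem conj_comm {a b : G} (h : IsConj a b) : ∃ g : G, ⁅g, a⁆ = b * a⁻¹ := by
  obtain ⟨g, hg⟩ := isConj_iff.1 h
  exact ⟨g, by rw [commutatorElement_def, hg]⟩

theorem conj_iff {a c : G} : IsConj a (c * a) ↔ ∃ g : G, ⁅g, a⁆ = c := by
  constructor
  · intro h
    obtain ⟨g, hg⟩ := conj_comm h
    exact ⟨g, by rw [hg]; group⟩
  · rintro ⟨g, hg⟩
    rw [isConj_iff]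
    exact ⟨g, by rw [← hg, commutatorElement_def]; group⟩

theorem diff_mem {α : MulAut G} (hα : α ∈ AutC G) (a : G) : α a * a⁻¹ ∈ commutator G := by
  obtain ⟨g, hg⟩ := conj_comm (hα a)
  rw [← hg]
  exact comm_mem g a

theorem aut_ext {d : ℕ} {x : Fin d → G} (hx : closure (Set.range x) = ⊤) {α β : MulAut G}
    (h : ∀ i, α (x i) = β (x i)) : α = β := by
  have h1 : (α : G ≃* G).toMonoidHom = (β : G ≃* G).toMonoidHom := by
    refine MonoidHom.eq_of_eqOn_dense hx ?_
    rintro _ ⟨i, rfl⟩
    exact h i
  ext g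
  exact DFunLike.congr_fun h1 g

/-- the cosets of a class-preserving automorphism -/
noncomputable def cos {d : ℕ} (x : Fin d → G) (α : AutC G) : Fin d → commutator G :=
  fun i => ⟨α.1 (x i) * (x i)⁻¹, diff_mem α.2 (x i)⟩

theorem cos_inj {d : ℕ} {x : Fin d → G} (hx : closure (Set.range x) = ⊤) :
    Function.Injective (cos x) := by
  intro α β h
  apply Subtype.ext
  refine aut_ext hx fun i => ?_
  have h1 := congrArg (fun f => ((f i : commutator G) : G)) h
  exact mul_right_cancel h1

theorem card_fun (d : ℕ) (A : Type*) : Nat.card (Fin d → A) = Nat.card A ^ d := by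
  rw [Nat.card_fun, Nat.card_fin]

theorem card_le [Finite G] {d : ℕ} {x : Fin d → G} (hx : closure (Set.range x) = ⊤) :
    Nat.card (AutC G) ≤ Nat.card (commutator G) ^ d := by
  rw [← card_fun]
  exact Nat.card_le_card_of_injective _ (cos_inj hx)

theorem card_eq_iff [Finite G] {d : ℕ} {x : Fin d → G} (hx : closure (Set.range x) = ⊤) :
    Nat.card (AutC G) = Nat.card (commutator G) ^ d ↔ FullAt x := by
  constructor
  · intro h c hc
    have hb : Function.Bijective (cos x) := by
      refine Function.Injective.bijective_of_nat_card_le (cos_inj hx) ?_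
      rw [card_fun, h]
    obtain ⟨α, hα⟩ := hb.2 fun i => ⟨c i, hc i⟩
    refine ⟨α.1, α.2, fun i => ?_⟩
    have h1 := congrArg (fun f => ((f i : commutator G) : G)) hα
    have h2 : α.1 (x i) * (x i)⁻¹ = c i := h1
    rw [← h2]; group
  · intro h
    refine le_antisymm (card_le hx) ?_
    rw [← card_fun]
    refine Nat.card_le_card_of_surjective (cos x) ?_
    intro c
    obtain ⟨α, hα, h1⟩ := h (fun i => (c i : G)) fun i => (c i).2
    refine ⟨⟨α, hα⟩, ?_⟩
    funext i
    apply Subtype.ext
    show α (x i) * (x i)⁻¹ = c i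
    rw [h1 i]; group

theorem full_iff [Finite G] {d : ℕ} {x : Fin d → G} (hx : closure (Set.range x) = ⊤) :
    Full G d ↔ Nat.card (AutC G) = Nat.card (commutator G) ^ d := by
  constructor
  · intro h
    exact (card_eq_iff hx).2 (h x hx)
  · intro h y hy
    exact (card_eq_iff hy).1 h

/-- the members of a generating tuple have classes `γ₂ x` -/
theorem one_of_full {d : ℕ} {x : Fin d → G} (h : FullAt x) (i : Fin d) {c : G}
    (hc : c ∈ commutator G) : ∃ g : G, ⁅g, x i⁆ = c := by
  classical
  obtain ⟨α, hα, h1⟩ := h (fun j => if j = i then c else 1) (by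
    intro j
    split_ifs
    · exact hc
    · exact one_mem _)
  have h2 := hα (x i)
  rw [h1 i, if_pos rfl] at h2
  exact conj_iff.1 h2

end

end Pool.Agent.Run7.h179.AC
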