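import Pool.Agent.Run7.h179.AC.A

set_option autoImplicit false

/-! Quotients of groups with the extremal condition. -/

namespace Pool.Agent.Run7.h179.AC

open Subgroup
open scoped commutatorElement

universe u

section
variable {G : Type*} [Group G]

theorem comm_mul_left (a b c : G) : ⁅a * b, c⁆ = a * ⁅b, c⁆ * a⁻¹ * ⁅a, c⁆ :=
  commutatorElement_mul_left_eq_conj_mul a b c

theorem comm_mul_right (a b c : G) : ⁅a, b * c⁆ = ⁅a, b⁆ * (b * ⁅a, c⁆ * b⁻¹) := by
  simp only [commutatorElement_def]; group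

theorem conj_eq (g a : G) : g * a * g⁻¹ = ⁅g, a⁆ * a := by
  rw [commutatorElement_def]; group

theorem nil_lemma [hn : Group.IsNilpotent G] {K K₀ : Subgroup G} [K.Normal] [K₀.Normal]
    (h : K ≤ ⁅K, (⊤ : Subgroup G)⁆ ⊔ K₀) : K ≤ K₀ := by
  have step : ∀ n : ℕ, K ≤ (⊤ : Subgroup G).lowerCentralSeries n ⊔ K₀ := by
    intro n
    induction n with
    | zero => rw [Subgroup.lowerCentralSeries_zero]; exact le_sup_of_le_left le_top
    | succ n ih =>
      refine h.trans (sup_le ?_ le_sup_right)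
      rw [commutator_le]
      intro g hg b _
      obtain ⟨a, ha, c, hc, rfl⟩ := mem_sup_of_normal_right.1 (ih hg)
      rw [comm_mul_left]
      refine mul_mem (Normal.conj_mem inferInstance _ ?_ _) ?_
      · refine mem_sup_right ?_
        have : ⁅c, b⁆ = c * (b * c⁻¹ * b⁻¹) := by rw [commutatorElement_def]; group
        rw [this]
        exact mul_mem hc (Normal.conj_mem inferInstance _ (inv_mem hc) _)
      · refine mem_sup_left ?_
        rw [Subgroup.lowerCentralSeries_succ]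
        exact commutator_mem_commutator ha (mem_top b)
  obtain ⟨n, hn'⟩ := Subgroup.nilpotent_iff_lowerCentralSeries.1 hn
  have := step n
  rwa [hn', bot_sup_eq] at this

theorem sup_comm_top [Finite G] [Group.IsNilpotent G] {H : Subgroup G}
    (h : H ⊔ commutator G = ⊤) : H = ⊤ := by
  by_contra hne
  obtain ⟨M, hM, hHM⟩ := (eq_top_or_exists_le_coatom H).resolve_left hne
  have : M.Normal := NormalizerCondition.normal_of_coatom M Group.normalizerCondition_of_isNilpotent hM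
  have h1 : commutator G ≤ M := by
    by_contra hc
    have h2 : M ⊔ commutator G = ⊤ := hM.2 _ (lt_of_le_of_ne le_sup_left fun e => hc (by
      rw [e]; exact le_sup_right))
    have h3 : (⊤ : Subgroup G) ≤ M := by
      refine nil_lemma ?_
      rw [sup_comm]
      exact h2.ge
    exact hM.1 (top_le_iff.1 h3)
  apply hM.1
  rw [← top_le_iff, ← h]
  exact sup_le hHM h1

theorem conj_map {α : MulAut G} (hα : α ∈ AutC G) (N : Subgroup G) [N.Normal] :
    N.map (α : G ≃* G).toMonoidHom = N := by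
  apply le_antisymm
  · rintro _ ⟨n, hn, rfl⟩
    obtain ⟨g, hg⟩ := isConj_iff.1 (hα n)
    show α n ∈ N
    rw [← hg]
    exact Normal.conj_mem inferInstance _ hn _
  · intro n hn
    have hα' := (AutC G).inv_mem hα
    obtain ⟨g, hg⟩ := isConj_iff.1 (hα' n)
    refine ⟨α⁻¹ n, ?_, ?_⟩
    · show α⁻¹ n ∈ N
      rw [← hg]
      exact Normal.conj_mem inferInstance _ hn _
    · show α (α⁻¹ n) = n
      exact MulAut.apply_inv_self _ _ _

theorem comm_quot (N : Subgroup G) [N.Normal] (K : Subgroup G) :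
    (⁅K, (⊤ : Subgroup G)⁆).map (QuotientGroup.mk' N) =
      ⁅K.map (QuotientGroup.mk' N), (⊤ : Subgroup (G ⧸ N))⁆ := by
  rw [map_commutator]
  congr 1
  exact map_top_of_surjective _ (QuotientGroup.mk'_surjective N)

theorem comm_quot' (N : Subgroup G) [N.Normal] :
    (commutator G).map (QuotientGroup.mk' N) = commutator (G ⧸ N) := by
  rw [commutator_def, comm_quot, commutator_def]
  congr 1
  exact map_top_of_surjective _ (QuotientGroup.mk'_surjective N)

theorem Full.quot [Finite G] [Group.IsNilpotent G] {N : Subgroup G} [N.Normal]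
    (hN : N ≤ commutator G) {d : ℕ} (h : Full G d) : Full (G ⧸ N) d := by
  intro x hx c hc
  choose y hy using fun i => QuotientGroup.mk'_surjective N (x i)
  have hc' : ∀ i, ∃ b ∈ commutator G, QuotientGroup.mk' N b = c i := by
    intro i
    have := hc i
    rw [← comm_quot' N] at this
    exact this
  choose b hb hbc using hc'
  have hy' : closure (Set.range y) = ⊤ := by
    apply sup_comm_top
    rw [eq_top_iff]
    intro g _
    have h1 : QuotientGroup.mk' N g ∈ (closure (Set.range y)).map (QuotientGroup.mk' N) := by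
      have : (closure (Set.range y)).map (QuotientGroup.mk' N) = ⊤ := by
        rw [MonoidHom.map_closure, ← hx]
        congr 1
        ext q
        constructor
        · rintro ⟨_, ⟨i, rfl⟩, rfl⟩
          exact ⟨i, (hy i).symm⟩
        · rintro ⟨i, rfl⟩
          exact ⟨y i, ⟨i, rfl⟩, hy i⟩
      rw [this]
      exact mem_top _
    obtain ⟨k, hk, hkg⟩ := h1
    have h2 : k⁻¹ * g ∈ N := QuotientGroup.eq.1 hkg
    have : g = k * (k⁻¹ * g) := by group
    rw [this]
    exact mul_mem (mem_sup_left hk) (mem_sup_right (hN h2))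
  obtain ⟨α, hα, h1⟩ := h y hy' b hb
  refine ⟨QuotientGroup.congr N N α (conj_map hα N), ?_, ?_⟩
  · intro q
    obtain ⟨g, rfl⟩ := QuotientGroup.mk'_surjective N q
    show IsConj (QuotientGroup.mk' N g) (QuotientGroup.mk' N (α g))
    exact (QuotientGroup.mk' N).map_isConj (hα g)
  · intro i
    rw [← hy i]
    show QuotientGroup.mk' N (α (y i)) = c i * QuotientGroup.mk' N (y i)
    rw [h1 i, map_mul, hbc i]

theorem exists_max [Finite G] [Group.IsNilpotent G] (K K₀ : Subgroup G) [K.Normal] [K₀.Normal]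
    (h : K₀ < K) : ∃ N : Subgroup G, N.Normal ∧ K₀ ≤ N ∧ N < K ∧ ⁅K, (⊤ : Subgroup G)⁆ ≤ N ∧
      ∀ M : Subgroup G, N ≤ M → M ≤ K → M = N ∨ M = K := by
  obtain ⟨N, ⟨⟨hNn, hN0, hNK⟩, hmax⟩⟩ := (Set.toFinite {N : Subgroup G | N.Normal ∧ K₀ ≤ N ∧ N < K}).exists_maximal
    ⟨K₀, inferInstance, le_rfl, h⟩
  have hcomm : ⁅K, (⊤ : Subgroup G)⁆ ≤ N := by
    have hn : (⁅K, (⊤ : Subgroup G)⁆ ⊔ N).Normal := inferInstance
    by_contra hc
    have h1 : ¬ (⁅K, (⊤ : Subgroup G)⁆ ⊔ N) < K := by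
      intro hlt
      have := hmax (y := ⁅K, (⊤ : Subgroup G)⁆ ⊔ N) ⟨hn, hN0.trans le_sup_right, hlt⟩ le_sup_right
      exact hc (le_sup_left.trans this)
    have h2 : ⁅K, (⊤ : Subgroup G)⁆ ⊔ N ≤ K := sup_le (commutator_le_left _ _) hNK.le
    have h3 : ⁅K, (⊤ : Subgroup G)⁆ ⊔ N = K := by
      rcases h2.lt_or_eq with h | h
      · exact absurd h h1
      · exact h
    exact hNK.not_ge (nil_lemma h3.ge)
  refine ⟨N, hNn, hN0, hNK, hcomm, fun M hNM hMK => ?_⟩
  have hMn : M.Normal := by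
    constructor
    intro m hm g
    rw [conj_eq]
    refine mul_mem (hNM (hcomm ?_)) hm
    rw [commutator_comm]
    exact commutator_mem_commutator (mem_top g) (hMK hm)
  rcases hMK.lt_or_eq with h | h
  · left
    exact le_antisymm (hmax (y := M) ⟨hMn, hN0.trans hNM, h⟩ hNM) hNM
  · exact Or.inr h

theorem pow_coprime_mem {p : ℕ} [hp : Fact p.Prime] (hG : IsPGroup p G) {H : Subgroup G} {a : G}
    {n : ℤ} (hn : ¬ (p : ℤ) ∣ n) (h : a ^ n ∈ H) : a ∈ H := by
  obtain ⟨k, hk⟩ := hG a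
  have hcop : IsCoprime n ((p : ℤ) ^ k) := by
    apply IsCoprime.pow_right
    rw [Int.isCoprime_iff_gcd_eq_one, Int.gcd_comm]
    have := (Int.isCoprime_iff_gcd_eq_one.1 ((Nat.prime_iff_prime_int.1 hp.out).coprime_iff_not_dvd.2 hn))
    exact this
  obtain ⟨u, v, huv⟩ := hcop
  have : a = (a ^ n) ^ u := by
    rw [← zpow_mul]
    have h1 : a ^ ((p : ℤ) ^ k) = 1 := by
      have : ((p : ℤ) ^ k) = ((p ^ k : ℕ) : ℤ) := by push_cast; rfl
      rw [this, zpow_natCast, hk]
    have h2 : n * u = 1 - v * (p : ℤ) ^ k := by linarith [huv, mul_comm n u]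
    rw [h2, zpow_sub, zpow_one, mul_comm v, zpow_mul, h1, one_zpow, inv_one, mul_one]
  rw [this]
  exact zpow_mem h u

end

/-- `z` generates `γ₃`, which is central of order `p` -/
structure H3 (p : ℕ) (G : Type*) [Group G] (z : G) : Prop where
  ne : z ≠ 1
  pow : z ^ p = 1
  cen : ∀ g : G, g * z = z * g
  mem : z ∈ ⁅commutator G, (⊤ : Subgroup G)⁆
  gen : ∀ c ∈ ⁅commutator G, (⊤ : Subgroup G)⁆, ∃ i : ℤ, c = z ^ i

section
variable {G : Type*} [Group G]

theorem max_gen {K N : Subgroup G} (hNn : N.Normal)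
    (hmax : ∀ M : Subgroup G, N ≤ M → M ≤ K → M = N ∨ M = K) (hNK : N ≤ K)
    {z : G} (hz : z ∈ K) (hzN : z ∉ N) {c : G} (hc : c ∈ K) : ∃ i : ℤ, z ^ i * c⁻¹ ∈ N := by
  have h1 := hmax (N ⊔ zpowers z) le_sup_left (sup_le hNK (zpowers_le.2 hz))
  have h2 : N ⊔ zpowers z = K := by
    rcases h1 with h1 | h1
    · exact absurd (h1 ▸ mem_sup_right (mem_zpowers z) : z ∈ N) hzN
    · exact h1
  rw [← h2] at hc
  obtain ⟨n, hn, _, ⟨i, rfl⟩, rfl⟩ := mem_sup_of_normal_left.1 hc
  refine ⟨i, ?_⟩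
  have : z ^ i * (n * z ^ i)⁻¹ = n⁻¹ := by group
  show z ^ i * (n * z ^ i)⁻¹ ∈ N
  rw [this]
  exact inv_mem hn

theorem max_pow {p : ℕ} [hp : Fact p.Prime] (hG : IsPGroup p G) {K N : Subgroup G} (hNn : N.Normal)
    (hmax : ∀ M : Subgroup G, N ≤ M → M ≤ K → M = N ∨ M = K) (hNK : N ≤ K)
    {z : G} (hz : z ∈ K) (hzN : z ∉ N) : z ^ p ∈ N := by
  by_contra hc
  obtain ⟨i, hi⟩ := max_gen hNn hmax hNK (pow_mem hz p) hc hz
  apply hzN
  have h1 : z ^ ((p : ℤ) * i - 1) ∈ N := by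
    rw [zpow_sub, zpow_one, zpow_mul, zpow_natCast]
    exact hi
  refine pow_coprime_mem hG ?_ h1
  intro hd
  have h2 : (p : ℤ) ∣ 1 := by
    have := dvd_sub (dvd_mul_right (p : ℤ) i) hd
    simpa using this
  have := Int.isUnit_iff.1 (isUnit_of_dvd_one h2)
  have hp1 := hp.out.one_lt
  omega

theorem H3_quot [Finite G] {p : ℕ} [hp : Fact p.Prime] (hG : IsPGroup p G) {N : Subgroup G}
    [hNn : N.Normal]
    (hlt : N < ⁅commutator G, (⊤ : Subgroup G)⁆)
    (hcomm : ⁅⁅commutator G, (⊤ : Subgroup G)⁆, (⊤ : Subgroup G)⁆ ≤ N)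
    (hmax : ∀ M : Subgroup G, N ≤ M → M ≤ ⁅commutator G, (⊤ : Subgroup G)⁆ →
      M = N ∨ M = ⁅commutator G, (⊤ : Subgroup G)⁆)
    {z : G} (hz : z ∈ ⁅commutator G, (⊤ : Subgroup G)⁆) (hzN : z ∉ N) :
    H3 p (G ⧸ N) (QuotientGroup.mk' N z) := by
  have hK : (⁅commutator G, (⊤ : Subgroup G)⁆).map (QuotientGroup.mk' N) =
      ⁅commutator (G ⧸ N), (⊤ : Subgroup (G ⧸ N))⁆ := by
    rw [comm_quot, comm_quot']
  refine ⟨?_, ?_, ?_, ?_, ?_⟩
  · intro h
    exact hzN ((QuotientGroup.eq_one_iff z).1 h)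
  · rw [← map_pow]
    exact (QuotientGroup.eq_one_iff _).2 (max_pow hG hNn hmax hlt.le hz hzN)
  · intro q
    obtain ⟨g, rfl⟩ := QuotientGroup.mk'_surjective N q
    rw [← commutatorElement_eq_one_iff_mul_comm, ← map_commutatorElement]
    refine (QuotientGroup.eq_one_iff _).2 (hcomm ?_)
    rw [commutator_comm]
    exact commutator_mem_commutator (mem_top g) hz
  · rw [← hK]
    exact ⟨z, hz, rfl⟩
  · intro c hc
    rw [← hK] at hc
    obtain ⟨c, hc, rfl⟩ := hc
    obtain ⟨i, hi⟩ := max_gen hNn hmax hlt.le hz hzN hc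
    refine ⟨i, ?_⟩
    rw [← map_zpow]
    have h1 : QuotientGroup.mk' N (z ^ i * c⁻¹) = 1 := (QuotientGroup.eq_one_iff _).2 hi
    rw [map_mul, map_inv, mul_inv_eq_one] at h1
    exact h1.symm

end

end Pool.Agent.Run7.h179.AC
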