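import Pool.Agent.Run7.h179.AC.B

set_option autoImplicit false

/-! Class three: no extremal groups with three or more generators. -/

namespace Pool.Agent.Run7.h179.AC

open Subgroup
open scoped commutatorElement

section
variable {G : Type*} [Group G]

/-- `g ↦ ⁅c, g⁆` for `c` with central commutators -/
def chi (c : G) (hc : ∀ g : G, ⁅c, g⁆ ∈ center G) : G →* center G where
  toFun g := ⟨⁅c, g⁆, hc g⟩
  map_one' := by
    apply Subtype.ext
    show ⁅c, (1 : G)⁆ = 1
    simp [commutatorElement_def]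
  map_mul' g h := by
    apply Subtype.ext
    show ⁅c, g * h⁆ = ⁅c, g⁆ * ⁅c, h⁆
    rw [comm_mul_right, mem_center_iff.1 (hc h) g, mul_inv_cancel_right]

theorem chi_apply (c : G) (hc : ∀ g : G, ⁅c, g⁆ ∈ center G) (g : G) :
    ((chi c hc g : center G) : G) = ⁅c, g⁆ := rfl

theorem kill_comm {c : G} (hc : ∀ g : G, ⁅c, g⁆ ∈ center G) {a : G} (ha : a ∈ commutator G) :
    ⁅c, a⁆ = 1 := by
  have h : commutator G ≤ (chi c hc).ker := by
    rw [commutator_eq_closure, closure_le]
    rintro _ ⟨a, b, rfl⟩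
    refine MonoidHom.mem_ker.2 ?_
    rw [map_commutatorElement, commutatorElement_eq_one_iff_mul_comm]
    exact Subtype.ext (mem_center_iff.1 (chi c hc b).2 _)
  exact congrArg Subtype.val (MonoidHom.mem_ker.1 (h ha))

theorem inv_cen {c g : G} (h : ⁅c, g⁆ ∈ center G) : ⁅g, c⁆ ∈ center G := by
  rw [← commutatorElement_inv]
  exact inv_mem h

/-- commutators of elements of `γ₂` are central in class three -/
theorem cen_of_H3 {p : ℕ} {z : G} (hz : H3 p G z) {c : G} (hc : c ∈ commutator G) (g : G) :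
    ⁅c, g⁆ ∈ center G := by
  obtain ⟨i, hi⟩ := hz.gen _ (commutator_mem_commutator hc (mem_top g))
  rw [hi]
  refine zpow_mem (mem_center_iff.2 fun g => hz.cen g) i

theorem comm_of_cen (hcen : ∀ c ∈ commutator G, ∀ g : G, ⁅c, g⁆ ∈ center G) {a b : G}
    (ha : a ∈ commutator G) (hb : b ∈ commutator G) : a * b = b * a :=
  commutatorElement_eq_one_iff_mul_comm.1 (kill_comm (hcen a ha) hb)

theorem conj_of_comm {a b : G} (h : a * b = b * a) : a * b * a⁻¹ = b := by
  rw [h, mul_inv_cancel_right]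

theorem lift_surj {d : ℕ} {x : Fin d → G} (hx : closure (Set.range x) = ⊤) (g : G) :
    ∃ w : FreeGroup (Fin d), FreeGroup.lift x w = g := by
  have h : g ∈ (FreeGroup.lift x).range := by
    rw [FreeGroup.range_lift_eq_closure, hx]
    exact mem_top g
  exact h

/-- the main step -/
theorem triple {d : ℕ} {x : Fin d → G} (hx : closure (Set.range x) = ⊤) (hF : FullAt x)
    (hcen : ∀ c ∈ commutator G, ∀ g : G, ⁅c, g⁆ ∈ center G) {i j k : Fin d}
    (hik : i ≠ k) (hjk : j ≠ k) :
    ∃ n : ℤ, ∀ c ∈ commutator G, ⁅c, x i⁆ = ⁅c, x j⁆ ^ n := by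
  classical
  obtain ⟨g, hg⟩ := one_of_full hF j (comm_mem (x k) (x i))
  obtain ⟨w, hw⟩ := lift_surj hx g
  let e : FreeGroup (Fin d) →* Multiplicative ℤ :=
    FreeGroup.lift (fun m => if m = k then Multiplicative.ofAdd 1 else 1)
  refine ⟨Multiplicative.toAdd (e w), fun c hc => ?_⟩
  obtain ⟨α, hα, h1⟩ := hF (fun m => if m = k then c else 1) (by
    intro m
    split_ifs
    · exact hc
    · exact one_mem _)
  have hδ : ∀ g, α g * g⁻¹ ∈ commutator G := diff_mem hα
  -- the homomorphism `g ↦ ⁅δ(g), x j⁆`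
  let ψ : G →* center G :=
    { toFun := fun g => ⟨⁅α g * g⁻¹, x j⁆, hcen _ (hδ g) _⟩
      map_one' := by
        apply Subtype.ext
        show ⁅α 1 * 1⁻¹, x j⁆ = 1
        simp [commutatorElement_def]
      map_mul' := fun g h => by
        apply Subtype.ext
        show ⁅α (g * h) * (g * h)⁻¹, x j⁆ = ⁅α g * g⁻¹, x j⁆ * ⁅α h * h⁻¹, x j⁆
        have e1 : α (g * h) * (g * h)⁻¹ = α g * g⁻¹ * (⁅g, α h * h⁻¹⁆ * (α h * h⁻¹)) := by
          rw [map_mul, ← conj_eq]; group
        have c1 : ⁅g, α h * h⁻¹⁆ ∈ center G := inv_cen (hcen _ (hδ h) g)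
        have c2 : ⁅α h * h⁻¹, x j⁆ ∈ center G := hcen _ (hδ h) _
        rw [e1, comm_mul_left (α g * g⁻¹), comm_mul_left ⁅g, α h * h⁻¹⁆]
        have e2 : ⁅⁅g, α h * h⁻¹⁆, x j⁆ = 1 :=
          commutatorElement_eq_one_iff_mul_comm.2 (mem_center_iff.1 c1 _).symm
        rw [e2, mul_one, mem_center_iff.1 c2 ⁅g, α h * h⁻¹⁆, mul_inv_cancel_right,
          mem_center_iff.1 c2 (α g * g⁻¹), mul_inv_cancel_right]
        exact (mem_center_iff.1 c2 _).symm }
  have hψ : ψ.comp (FreeGroup.lift x) =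
      (zpowersHom (center G) ⟨⁅c, x j⁆, hcen c hc _⟩).comp e := by
    ext m
    show ⁅α (FreeGroup.lift x (FreeGroup.of m)) * (FreeGroup.lift x (FreeGroup.of m))⁻¹, x j⁆ = _
    rw [FreeGroup.lift_apply_of, h1 m]
    show _ = (((zpowersHom (center G) ⟨⁅c, x j⁆, hcen c hc _⟩) (e (FreeGroup.of m)) : center G) : G)
    rw [FreeGroup.lift_apply_of]
    by_cases hm : m = k
    · rw [if_pos hm, if_pos hm, mul_inv_cancel_right, zpowersHom_apply]
      simp
    · rw [if_neg hm, if_neg hm, one_mul, mul_inv_cancel, map_one]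
      simp [commutatorElement_def]
  have h2 : ⁅α g * g⁻¹, x j⁆ = ⁅c, x j⁆ ^ (Multiplicative.toAdd (e w)) := by
    have := congrArg Subtype.val (DFunLike.congr_fun hψ w)
    rw [MonoidHom.comp_apply, MonoidHom.comp_apply, hw] at this
    rw [zpowersHom_apply] at this
    exact this
  rw [← h2]
  -- apply `α` to the relation
  have h3 : α ⁅g, x j⁆ = ⁅g, x j⁆ * ⁅α g * g⁻¹, x j⁆ := by
    rw [map_commutatorElement, h1 j, if_neg hjk, one_mul]
    have : α g = (α g * g⁻¹) * g := by group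
    rw [this, comm_mul_left, mul_inv_cancel_right]
    rw [conj_of_comm (comm_of_cen hcen (hδ g) (comm_mem _ _))]
  have h4 : α ⁅x k, x i⁆ = ⁅x k, x i⁆ * ⁅c, x i⁆ := by
    rw [map_commutatorElement, h1 i, if_neg hik, one_mul, h1 k, if_pos rfl, comm_mul_left,
      conj_of_comm (comm_of_cen hcen hc (comm_mem _ _))]
  rw [← hg, h3] at h4
  exact (mul_left_cancel h4).symm

theorem gen_update {d : ℕ} {x : Fin d → G} (hx : closure (Set.range x) = ⊤) {i j : Fin d}
    (hij : j ≠ i) (n : ℤ) : closure (Set.range (Function.update x i (x i * x j ^ n))) = ⊤ := by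
  classical
  rw [eq_top_iff, ← hx, closure_le]
  have hj : x j ∈ closure (Set.range (Function.update x i (x i * x j ^ n))) :=
    subset_closure ⟨j, by rw [Function.update_of_ne hij]⟩
  rintro _ ⟨m, rfl⟩
  by_cases hm : m = i
  · subst hm
    have h0 : x m * x j ^ n ∈ closure (Set.range (Function.update x m (x m * x j ^ n))) :=
      subset_closure ⟨m, by rw [Function.update_self]⟩
    have h1 := mul_mem h0 (inv_mem (zpow_mem hj n))
    rwa [mul_inv_cancel_right] at h1
  · exact subset_closure ⟨m, by rw [Function.update_of_ne hm]⟩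

/-- no extremal group of class three with three generators -/
theorem no_three {p : ℕ} {z : G} (hz : H3 p G z) {d : ℕ} (hd : 3 ≤ d) (hF : Full G d)
    {x : Fin d → G} (hx : closure (Set.range x) = ⊤) : False := by
  classical
  have hcen : ∀ c ∈ commutator G, ∀ g : G, ⁅c, g⁆ ∈ center G := fun c hc g => cen_of_H3 hz hc g
  have third : ∀ i j : Fin d, ∃ k : Fin d, i ≠ k ∧ j ≠ k := by
    intro i j
    by_contra hc
    push Not at hc
    have h1 : (Finset.univ : Finset (Fin d)) ⊆ {i, j} := by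
      intro k _
      by_cases hk : i = k
      · simp [hk]
      · simp [hc k hk]
    have h2 := Finset.card_le_card h1
    have h3 := Finset.card_le_two (a := i) (b := j)
    rw [Finset.card_univ, Fintype.card_fin] at h2
    omega
  have main : ∀ y : Fin d → G, closure (Set.range y) = ⊤ → ∀ i j : Fin d,
      ∃ n : ℤ, ∀ c ∈ commutator G, ⁅c, y i⁆ = ⁅c, y j⁆ ^ n := by
    intro y hy i j
    obtain ⟨k, h1, h2⟩ := third i j
    exact triple hy (hF y hy) hcen h1 h2
  -- some generator does not centralise `γ₂`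
  have hex : ∃ i : Fin d, ∃ c ∈ commutator G, ⁅c, x i⁆ ≠ 1 := by
    by_contra hc
    push Not at hc
    apply hz.ne
    have h1 : ⁅commutator G, (⊤ : Subgroup G)⁆ ≤ ⊥ := by
      rw [commutator_le]
      intro c hc' g _
      rw [mem_bot]
      have h2 : (⊤ : Subgroup G) ≤ (chi c (hcen c hc')).ker := by
        rw [← hx, closure_le]
        rintro _ ⟨i, rfl⟩
        exact MonoidHom.mem_ker.2 (Subtype.ext (hc i c hc'))
      exact congrArg Subtype.val (MonoidHom.mem_ker.1 (h2 (mem_top g)))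
    exact mem_bot.1 (h1 hz.mem)
  obtain ⟨i, c₀, hc₀, hne⟩ := hex
  obtain ⟨j, hj, -⟩ := third i i
  have hji : j ≠ i := fun h => hj h.symm
  obtain ⟨n, hn⟩ := main x hx i j
  obtain ⟨n', hn'⟩ := main _ (gen_update hx hji (-n)) j i
  have h1 : ⁅c₀, x j⁆ = 1 := by
    have h2 := hn' c₀ hc₀
    rw [Function.update_of_ne hji, Function.update_self] at h2
    rw [h2]
    have h3 : ⁅c₀, x i * x j ^ (-n)⁆ = 1 := by
      have h4 := map_mul (chi c₀ (hcen c₀ hc₀)) (x i) (x j ^ (-n))
      rw [map_zpow] at h4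
      have h5 := congrArg Subtype.val h4
      have h6 : ⁅c₀, x i * x j ^ (-n)⁆ = ⁅c₀, x i⁆ * ⁅c₀, x j⁆ ^ (-n) := h5
      rw [h6, hn c₀ hc₀, ← zpow_add, add_neg_cancel, zpow_zero]
    rw [h3, one_zpow]
  apply hne
  rw [hn c₀ hc₀, h1, one_zpow]

end

end Pool.Agent.Run7.h179.AC
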