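import Pool.Agent.Run7.h179.AC.C

set_option autoImplicit false

/-! Two generators, class three. -/

namespace Pool.Agent.Run7.h179.AC

open Subgroup
open scoped commutatorElement

theorem range_pair {G : Type*} (x y : G) : Set.range ![x, y] = {x, y} := by
  ext g
  constructor
  · rintro ⟨i, rfl⟩
    fin_cases i
    · exact Or.inl rfl
    · exact Or.inr rfl
  · rintro (rfl | rfl)
    · exact ⟨0, rfl⟩
    · exact ⟨1, rfl⟩

section
variable {G : Type*} [Group G]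

/-- the extremal condition for pairs -/
theorem full_pair (hF : Full G 2) {x y : G} (h : closure {x, y} = ⊤) {c c' : G}
    (hc : c ∈ commutator G) (hc' : c' ∈ commutator G) :
    ∃ α ∈ AutC G, α x = c * x ∧ α y = c' * y := by
  obtain ⟨α, hα, h1⟩ := hF ![x, y] (by rw [range_pair]; exact h) ![c, c'] (by
    intro i
    fin_cases i
    · exact hc
    · exact hc')
  exact ⟨α, hα, h1 0, h1 1⟩

theorem full_snd (hF : Full G 2) {x y : G} (h : closure {x, y} = ⊤) {c : G}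
    (hc : c ∈ commutator G) : ∃ g : G, ⁅g, y⁆ = c := by
  obtain ⟨α, hα, h1, h2⟩ := full_pair hF h (one_mem _) hc
  have h3 := hα y
  rw [h2] at h3
  exact conj_iff.1 h3

theorem pair_swap {x y : G} (h : closure {x, y} = ⊤) : closure {y, x} = ⊤ := by
  rw [Set.pair_comm]; exact h

theorem pair_of_mem {x y x' y' : G} (h : closure {x, y} = ⊤) (h1 : x ∈ closure {x', y'})
    (h2 : y ∈ closure {x', y'}) : closure {x', y'} = ⊤ := by
  rw [eq_top_iff, ← h, closure_le]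
  rintro g (rfl | rfl)
  · exact h1
  · exact h2

theorem pair_form {x y : G} (h : closure {x, y} = ⊤) (g : G) :
    ∃ i j : ℤ, ∃ e ∈ commutator G, g = x ^ i * (y ^ j * e) := by
  have h1 : closure {(Abelianization.of x : Abelianization G), Abelianization.of y} = ⊤ := by
    have h2 : (closure {x, y}).map (Abelianization.of (G := G)) = ⊤ := by
      rw [h]
      exact map_top_of_surjective _ (QuotientGroup.mk'_surjective _)
    rw [MonoidHom.map_closure, Set.image_pair] at h2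
    exact h2
  have h2 : Abelianization.of g ∈ closure {(Abelianization.of x : Abelianization G),
      Abelianization.of y} := by rw [h1]; exact mem_top _
  obtain ⟨i, j, hij⟩ := mem_closure_pair.1 h2
  refine ⟨i, j, (x ^ i * y ^ j)⁻¹ * g, ?_, by group⟩
  rw [← Abelianization.ker_of G]
  rw [MonoidHom.mem_ker, map_mul, map_inv, map_mul, map_zpow, map_zpow, hij, inv_mul_cancel]

theorem pair_comm {x y : G} (h : closure {x, y} = ⊤) :
    commutator G ≤ zpowers ⁅x, y⁆ ⊔ ⁅commutator G, (⊤ : Subgroup G)⁆ := by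
  obtain ⟨H, hH⟩ : ∃ H, H = zpowers ⁅x, y⁆ ⊔ ⁅commutator G, (⊤ : Subgroup G)⁆ := ⟨_, rfl⟩
  have hHc : H ≤ commutator G := by
    rw [hH]
    exact sup_le (zpowers_le.2 (comm_mem x y)) (commutator_le_left _ _)
  have hn : H.Normal := by
    constructor
    intro a ha g
    rw [conj_eq]
    refine mul_mem ?_ ha
    rw [hH]
    refine mem_sup_right ?_
    rw [commutator_comm]
    exact commutator_mem_commutator (mem_top g) (hHc ha)
  rw [← hH]
  have hw : ⁅x, y⁆ ∈ H := by rw [hH]; exact mem_sup_left (mem_zpowers _)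
  -- elements commuting with `a` modulo `H`
  have key : ∀ a : G, (∀ b ∈ ({x, y} : Set G), ⁅b, a⁆ ∈ H) → ∀ g : G, ⁅g, a⁆ ∈ H := by
    intro a ha g
    have hg : g ∈ closure {x, y} := by rw [h]; exact mem_top g
    induction hg using closure_induction with
    | mem b hb => exact ha b hb
    | one => simp only [commutatorElement_one_left]; exact one_mem _
    | mul b c _ _ hb hc =>
      rw [comm_mul_left]
      exact mul_mem (hn.conj_mem _ hc _) hb
    | inv b _ hb =>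
      have : ⁅b⁻¹, a⁆ = b⁻¹ * ⁅b, a⁆⁻¹ * b⁻¹⁻¹ := by simp only [commutatorElement_def]; group
      rw [this]
      exact hn.conj_mem _ (inv_mem hb) _
  have hx : ∀ g : G, ⁅g, x⁆ ∈ H := key x (by
    rintro b (rfl | rfl)
    · rw [commutatorElement_self]; exact one_mem _
    · rw [← commutatorElement_inv]; exact inv_mem hw)
  have hy : ∀ g : G, ⁅g, y⁆ ∈ H := key y (by
    rintro b (rfl | rfl)
    · exact hw
    · rw [commutatorElement_self]; exact one_mem _)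
  rw [commutator_def, commutator_le]
  intro g _ a _
  refine key a ?_ g
  rintro b (rfl | rfl)
  · rw [← commutatorElement_inv]; exact inv_mem (hx a)
  · rw [← commutatorElement_inv]; exact inv_mem (hy a)

theorem pair_comm_form {x y : G} (h : closure {x, y} = ⊤) {c : G} (hc : c ∈ commutator G) :
    ∃ i : ℤ, ∃ e ∈ ⁅commutator G, (⊤ : Subgroup G)⁆, c = ⁅x, y⁆ ^ i * e := by
  obtain ⟨_, ⟨i, rfl⟩, e, he, h1⟩ := mem_sup_of_normal_right.1 (pair_comm h hc)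
  exact ⟨i, e, he, h1.symm⟩

theorem cen_of_mem {p : ℕ} {z : G} (hz : H3 p G z) {e : G}
    (he : e ∈ ⁅commutator G, (⊤ : Subgroup G)⁆) : ∀ g : G, g * e = e * g := by
  obtain ⟨i, rfl⟩ := hz.gen e he
  intro g
  exact ((Commute.zpow_right (hz.cen g : Commute g z)) i)

/-- an element commuting with `⁅x, y⁆` commutes with `γ₂` -/
theorem cent_gamma {p : ℕ} {z : G} (hz : H3 p G z) {x y : G} (h : closure {x, y} = ⊤) {g : G}
    (hg : g * ⁅x, y⁆ = ⁅x, y⁆ * g) {c : G} (hc : c ∈ commutator G) : g * c = c * g := by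
  obtain ⟨i, e, he, rfl⟩ := pair_comm_form h hc
  exact ((Commute.zpow_right (hg : Commute g _) i).mul_right (cen_of_mem hz he g))

theorem not_cen {p : ℕ} {z : G} (hz : H3 p G z) {x y : G} (h : closure {x, y} = ⊤)
    (h1 : x * ⁅x, y⁆ = ⁅x, y⁆ * x) (h2 : y * ⁅x, y⁆ = ⁅x, y⁆ * y) : False := by
  have h3 : ∀ g : G, g * ⁅x, y⁆ = ⁅x, y⁆ * g := by
    have h4 : closure {x, y} ≤ centralizer {⁅x, y⁆} := by
      rw [closure_le]
      rintro g (rfl | rfl)
      · exact mem_centralizer_iff.2 (by rintro _ rfl; exact h1.symm)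
      · exact mem_centralizer_iff.2 (by rintro _ rfl; exact h2.symm)
    intro g
    have h5 : g ∈ centralizer {⁅x, y⁆} := h4 (by rw [h]; exact mem_top g)
    exact (mem_centralizer_iff.1 h5 _ rfl).symm
  apply hz.ne
  have h6 : ⁅commutator G, (⊤ : Subgroup G)⁆ ≤ ⊥ := by
    rw [commutator_le]
    intro c hc g _
    rw [mem_bot, commutatorElement_eq_one_iff_mul_comm]
    exact (cent_gamma hz h (h3 g) hc).symm
  exact mem_bot.1 (h6 hz.mem)

/-- a power of an element of order `p` -/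
theorem pow_of_ne {p : ℕ} [hp : Fact p.Prime] {z : G} (hz : H3 p G z) {u : G}
    (hu : u ∈ ⁅commutator G, (⊤ : Subgroup G)⁆) (hne : u ≠ 1) : ∃ m : ℤ, z = u ^ m := by
  obtain ⟨i, rfl⟩ := hz.gen u hu
  have hnd : ¬ (p : ℤ) ∣ i := by
    rintro ⟨k, rfl⟩
    apply hne
    rw [zpow_mul, zpow_natCast, hz.pow, one_zpow]
  have hcop : IsCoprime i (p : ℤ) :=
    ((Nat.prime_iff_prime_int.1 hp.out).coprime_iff_not_dvd.2 hnd).symm
  obtain ⟨a, b, hab⟩ := hcop
  refine ⟨a, ?_⟩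
  rw [← zpow_mul]
  have : i * a = 1 - b * p := by linarith [mul_comm i a]
  rw [this, zpow_sub, zpow_one, mul_comm b, zpow_mul, zpow_natCast, hz.pow, one_zpow, inv_one,
    mul_one]

/-- a generating pair whose second member centralises `γ₂` -/
theorem good_pair {p : ℕ} [hp : Fact p.Prime] {z : G} (hz : H3 p G z) {x₀ y₀ : G}
    (h : closure {x₀, y₀} = ⊤) :
    ∃ x y : G, closure {x, y} = ⊤ ∧ (∀ c ∈ commutator G, y * c = c * y) ∧ ⁅x, ⁅x, y⁆⁆ ≠ 1 := by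
  have hfin : ∀ x y : G, closure {x, y} = ⊤ → (∀ c ∈ commutator G, y * c = c * y) →
      ⁅x, ⁅x, y⁆⁆ ≠ 1 := by
    intro x y hxy hy hc
    exact not_cen hz hxy (commutatorElement_eq_one_iff_mul_comm.1 hc) (hy _ (comm_mem x y))
  by_cases hy : y₀ * ⁅x₀, y₀⁆ = ⁅x₀, y₀⁆ * y₀
  · have h1 : ∀ c ∈ commutator G, y₀ * c = c * y₀ := fun c hc => cent_gamma hz h hy hc
    exact ⟨x₀, y₀, h, h1, hfin _ _ h h1⟩
  · have hcen : ∀ g : G, ⁅⁅x₀, y₀⁆, g⁆ ∈ center G := fun g => cen_of_H3 hz (comm_mem _ _) g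
    have hne : ⁅⁅x₀, y₀⁆, y₀⁆ ≠ 1 := fun hc =>
      hy (commutatorElement_eq_one_iff_mul_comm.1 hc).symm
    have m1 : ∀ g : G, ⁅⁅x₀, y₀⁆, g⁆ ∈ ⁅commutator G, (⊤ : Subgroup G)⁆ := fun g =>
      commutator_mem_commutator (comm_mem _ _) (mem_top g)
    obtain ⟨m, hm⟩ := pow_of_ne hz (m1 y₀) hne
    obtain ⟨a, ha⟩ := hz.gen _ (m1 x₀)
    obtain ⟨k, hk⟩ : ∃ k, k = -(m * a) := ⟨_, rfl⟩
    have h2 : ⁅⁅x₀, y₀⁆, x₀ * y₀ ^ k⁆ = 1 := by
      have h4 := map_mul (chi ⁅x₀, y₀⁆ hcen) x₀ (y₀ ^ k)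
      rw [map_zpow] at h4
      have h6 : ⁅⁅x₀, y₀⁆, x₀ * y₀ ^ k⁆ = ⁅⁅x₀, y₀⁆, x₀⁆ * ⁅⁅x₀, y₀⁆, y₀⁆ ^ k :=
        congrArg Subtype.val h4
      rw [h6, ha, hm, ← zpow_mul, ← zpow_add, hk, add_neg_cancel, zpow_zero]
    have h3 : closure {y₀, x₀ * y₀ ^ k} = ⊤ := by
      have q1 : y₀ ∈ closure {y₀, x₀ * y₀ ^ k} := subset_closure (Or.inl rfl)
      have q2 : x₀ * y₀ ^ k ∈ closure {y₀, x₀ * y₀ ^ k} := subset_closure (Or.inr rfl)
      refine pair_of_mem h ?_ q1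
      have := mul_mem q2 (inv_mem (zpow_mem q1 k))
      rwa [mul_inv_cancel_right] at this
    have h4 : ∀ c ∈ commutator G, (x₀ * y₀ ^ k) * c = c * (x₀ * y₀ ^ k) := fun c hc =>
      cent_gamma hz h (commutatorElement_eq_one_iff_mul_comm.1 h2).symm hc
    exact ⟨y₀, x₀ * y₀ ^ k, h3, h4, hfin _ _ h3 h4⟩

theorem pow_comm {x y : G} (hcen : ∀ g : G, g * ⁅x, ⁅x, y⁆⁆ = ⁅x, ⁅x, y⁆⁆ * g) (n : ℕ) :
    ⁅x ^ n, y⁆ = ⁅x, y⁆ ^ n * ⁅x, ⁅x, y⁆⁆ ^ (n.choose 2) := by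
  induction n with
  | zero => simp [commutatorElement_def]
  | succ n ih =>
    rw [pow_succ', comm_mul_left, ih]
    have h1 : x * (⁅x, y⁆ ^ n * ⁅x, ⁅x, y⁆⁆ ^ (n.choose 2)) * x⁻¹ =
        (x * ⁅x, y⁆ * x⁻¹) ^ n * (x * ⁅x, ⁅x, y⁆⁆ * x⁻¹) ^ (n.choose 2) := by
      rw [conj_pow, conj_pow]; group
    have h2 : x * ⁅x, ⁅x, y⁆⁆ * x⁻¹ = ⁅x, ⁅x, y⁆⁆ := by rw [hcen x, mul_inv_cancel_right]
    rw [h1, h2, conj_eq x ⁅x, y⁆]
    have h3 : Commute ⁅x, ⁅x, y⁆⁆ ⁅x, y⁆ := (hcen _).symm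
    have h4 : ∀ (k : ℕ) (g : G), ⁅x, ⁅x, y⁆⁆ ^ k * g = g * ⁅x, ⁅x, y⁆⁆ ^ k := fun k g =>
      ((show Commute g _ from hcen g).pow_right k).symm
    rw [h3.mul_pow, Nat.choose_succ_succ' n 1, Nat.choose_one_right, pow_succ ⁅x, y⁆ n,
      mul_assoc (⁅x, ⁅x, y⁆⁆ ^ n), h4 n, mul_assoc, mul_assoc, mul_assoc]
    congr 1
    rw [h4 n ⁅x, y⁆, ← mul_assoc, h4 (n.choose 2), mul_assoc, ← pow_add, add_comm]

end

end Pool.Agent.Run7.h179.AC
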