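import Pool.Agent.Run7.h179.AC.D

set_option autoImplicit false

/-! Two generators, `γ₃` central of order `p`. -/

namespace Pool.Agent.Run7.h179.AC

open Subgroup
open scoped commutatorElement

section
variable {G : Type*} [Group G]

theorem nat_pow [Finite G] (x : G) (i : ℤ) : ∃ n : ℕ, x ^ i = x ^ n := by
  have h : x ^ i ∈ Submonoid.powers x := by
    rw [mem_powers_iff_mem_zpowers]
    exact zpow_mem (mem_zpowers x) i
  obtain ⟨n, hn⟩ := h
  exact ⟨n, hn.symm⟩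

theorem step3 [Finite G] {p : ℕ} [hp : Fact p.Prime] (hG : IsPGroup p G) {z : G} (hz : H3 p G z)
    (hF : Full G 2) {x₀ y₀ : G} (h₀ : closure {x₀, y₀} = ⊤) :
    (p ≠ 2 ∧ ∃ c ∈ commutator G, c ^ p = z) ∨
      (p = 2 ∧ ((∃ c ∈ commutator G, c ^ 4 = z) ∨ ∀ c ∈ commutator G, c ^ 2 = 1)) := by
  obtain ⟨x, y, h, hy, hne⟩ := good_pair hz h₀
  have hz' : ⁅x, ⁅x, y⁆⁆ ∈ ⁅commutator G, (⊤ : Subgroup G)⁆ := by
    rw [commutator_comm]
    exact commutator_mem_commutator (mem_top _) (comm_mem _ _)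
  have hcz : ∀ g : G, g * ⁅x, ⁅x, y⁆⁆ = ⁅x, ⁅x, y⁆⁆ * g := cen_of_mem hz hz'
  have hz2 : ⁅x, ⁅x, y⁆⁆ ∈ commutator G := commutator_le_left _ _ hz'
  have hzp : ⁅x, ⁅x, y⁆⁆ ^ p = 1 := by
    obtain ⟨i, hi⟩ := hz.gen _ hz'
    rw [hi, ← zpow_natCast, ← zpow_mul, mul_comm, zpow_mul, zpow_natCast, hz.pow, one_zpow]
  obtain ⟨n, hn⟩ : ∃ n : ℕ, ⁅x, ⁅x, y⁆⁆ = ⁅x, y⁆ ^ n * ⁅x, ⁅x, y⁆⁆ ^ (n.choose 2) := by
    obtain ⟨g, hg⟩ := full_snd hF h hz2
    obtain ⟨i, j, e, he, rfl⟩ := pair_form h g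
    obtain ⟨n, hn⟩ := nat_pow x i
    refine ⟨n, ?_⟩
    rw [← pow_comm hcz, ← hn, ← hg, comm_mul_left]
    have h1 : ⁅y ^ j * e, y⁆ = 1 := by
      rw [commutatorElement_eq_one_iff_mul_comm]
      have h2 : Commute (y ^ j) y := (Commute.refl y).zpow_left j
      have h3 : Commute e y := (hy e he).symm
      exact h2.mul_left h3
    rw [h1, mul_one, mul_inv_cancel, one_mul]
  obtain ⟨m, hm⟩ := pow_of_ne hz hz' hne
  have hpn : p ∣ n := by
    by_contra hnd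
    have h1 : ⁅x, y⁆ ^ (n : ℤ) ∈ center G := by
      rw [zpow_natCast]
      have h2 : ⁅x, y⁆ ^ n = ⁅x, ⁅x, y⁆⁆ * (⁅x, ⁅x, y⁆⁆ ^ (n.choose 2))⁻¹ :=
        eq_mul_inv_of_mul_eq hn.symm
      rw [h2]
      have h3 : ⁅x, ⁅x, y⁆⁆ ∈ center G := mem_center_iff.2 hcz
      exact mul_mem h3 (inv_mem (pow_mem h3 _))
    have h4 : ⁅x, y⁆ ∈ center G := pow_coprime_mem hG (by rwa [Int.natCast_dvd_natCast]) h1
    exact hne (commutatorElement_eq_one_iff_mul_comm.2 (mem_center_iff.1 h4 x))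
  obtain ⟨k, rfl⟩ := hpn
  by_cases hp2 : p = 2
  · right
    refine ⟨hp2, ?_⟩
    subst hp2
    have hch : (2 * k).choose 2 = k * (2 * k - 1) := by
      rw [Nat.choose_two_right, mul_assoc, Nat.mul_div_cancel_left _ (by norm_num)]
    rcases Nat.even_or_odd' k with ⟨l, rfl | rfl⟩
    · left
      refine ⟨⁅x, y⁆ ^ ((l : ℤ) * m), zpow_mem (comm_mem _ _) _, ?_⟩
      rw [hch] at hn
      have h1 : ⁅x, ⁅x, y⁆⁆ ^ (2 * l * (2 * (2 * l) - 1)) = 1 := by
        rw [mul_assoc, pow_mul, hzp, one_pow]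
      rw [h1, mul_one] at hn
      rw [hm, hn, ← zpow_natCast, ← zpow_natCast, ← zpow_mul, ← zpow_mul]
      congr 1
      push_cast
      ring
    · right
      rw [hch] at hn
      have h1 : ⁅x, ⁅x, y⁆⁆ ^ ((2 * l + 1) * (2 * (2 * l + 1) - 1)) = ⁅x, ⁅x, y⁆⁆ := by
        have : (2 * l + 1) * (2 * (2 * l + 1) - 1) = 2 * ((2 * l + 1) * (2 * l) + l) + 1 := by
          have : 2 * (2 * l + 1) - 1 = 2 * (2 * l) + 1 := by omega
          rw [this]; ring
        rw [this, pow_succ, pow_mul, hzp, one_pow, one_mul]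
      rw [h1] at hn
      have h2 : ⁅x, y⁆ ^ (2 * (2 * l + 1)) = 1 := by
        exact (mul_eq_right.1 hn.symm)
      have h3 : ⁅x, y⁆ ^ 2 = 1 := by
        rw [pow_mul] at h2
        have h4 : ⁅x, y⁆ ^ 2 ∈ (⊥ : Subgroup G) := by
          refine pow_coprime_mem hG (n := ((2 * l + 1 : ℕ) : ℤ)) ?_ ?_
          · rw [Int.natCast_dvd_natCast]; omega
          · rw [zpow_natCast, h2]; exact one_mem _
        exact mem_bot.1 h4
      intro c hc
      obtain ⟨i, e, he, rfl⟩ := pair_comm_form h hc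
      have h5 : Commute (⁅x, y⁆ ^ i) e := cen_of_mem hz he _
      rw [h5.mul_pow]
      obtain ⟨j, rfl⟩ := hz.gen e he
      rw [← zpow_natCast, ← zpow_mul, mul_comm, zpow_mul, zpow_natCast, h3, one_zpow, one_mul,
        ← zpow_natCast, ← zpow_mul, mul_comm, zpow_mul, zpow_natCast, hz.pow, one_zpow]
  · left
    refine ⟨hp2, ⁅x, y⁆ ^ ((k : ℤ) * m), zpow_mem (comm_mem _ _) _, ?_⟩
    have h1 : p ∣ (p * k).choose 2 := by
      have h2 : p ∣ 2 * (p * k).choose 2 := by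
        rw [Nat.choose_two_right]
        have h3 : 2 ∣ (p * k) * (p * k - 1) := by
          rcases Nat.eq_zero_or_pos (p * k) with h0 | h0
          · rw [h0]; simp
          · have := Nat.even_mul_pred_self (p * k)
            exact this.two_dvd
        rw [Nat.mul_div_cancel' h3, mul_assoc]
        exact dvd_mul_right _ _
      rcases (hp.out.dvd_mul).1 h2 with h3 | h3
      · exact absurd ((Nat.prime_dvd_prime_iff_eq hp.out Nat.prime_two).1 h3) hp2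
      · exact h3
    obtain ⟨l, hl⟩ := h1
    rw [hl, pow_mul ⁅x, ⁅x, y⁆⁆, hzp, one_pow, mul_one] at hn
    rw [hm, hn, ← zpow_natCast, ← zpow_natCast, ← zpow_mul, ← zpow_mul]
    congr 1
    push_cast
    ring

end

end Pool.Agent.Run7.h179.AC
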