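import Pool.Agent.Run7.h179.AC.E

set_option autoImplicit false

/-! First reductions in the necessity part. -/

namespace Pool.Agent.Run7.h179.AC

open Subgroup
open scoped commutatorElement

section
variable {G : Type*} [Group G]

theorem quot_gen {N : Subgroup G} [N.Normal] {d : ℕ} {x : Fin d → G}
    (hx : closure (Set.range x) = ⊤) :
    closure (Set.range fun i => QuotientGroup.mk' N (x i)) = ⊤ := by
  have h2 : (closure (Set.range x)).map (QuotientGroup.mk' N) = ⊤ := by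
    rw [hx]
    exact map_top_of_surjective _ (QuotientGroup.mk'_surjective _)
  rw [MonoidHom.map_closure, ← Set.range_comp] at h2
  exact h2

theorem quot_pair {N : Subgroup G} [N.Normal] {x y : G} (h : closure {x, y} = ⊤) :
    closure {QuotientGroup.mk' N x, QuotientGroup.mk' N y} = ⊤ := by
  have h2 : (closure {x, y}).map (QuotientGroup.mk' N) = ⊤ := by
    rw [h]
    exact map_top_of_surjective _ (QuotientGroup.mk'_surjective _)
  rwa [MonoidHom.map_closure, Set.image_pair] at h2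

theorem nec_three [Finite G] {p : ℕ} [hp : Fact p.Prime] (hG : IsPGroup p G) {d : ℕ} (hd : 3 ≤ d)
    (hF : Full G d) {x : Fin d → G} (hx : closure (Set.range x) = ⊤) :
    ⁅commutator G, (⊤ : Subgroup G)⁆ = ⊥ := by
  by_contra hne
  have : Group.IsNilpotent G := hG.isNilpotent
  obtain ⟨N, hNn, -, hlt, hcomm, hmax⟩ := exists_max ⁅commutator G, (⊤ : Subgroup G)⁆ ⊥
    (bot_lt_iff_ne_bot.2 hne)
  obtain ⟨z, hz, hzN⟩ := SetLike.exists_of_lt hlt
  exact no_three (H3_quot hG hlt hcomm hmax hz hzN) hd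
    (hF.quot (hlt.le.trans (commutator_le_left _ _))) (quot_gen hx)

theorem pow_mem_frattini {p : ℕ} [hp : Fact p.Prime] (hG : IsPGroup p G) [Finite G] (c : G) :
    c ^ p ∈ frattini G := by
  have : Group.IsNilpotent G := hG.isNilpotent
  have key : ∀ M : Subgroup G, IsCoatom M → c ^ p ∈ M := by
    intro M hM
    have hn : M.Normal :=
      NormalizerCondition.normal_of_coatom M Group.normalizerCondition_of_isNilpotent hM
    by_cases hc : c ∈ M
    · exact pow_mem hc p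
    · refine max_pow hG hn (K := ⊤) ?_ le_top (mem_top c) hc
      intro M' h1 _
      rcases h1.lt_or_eq with h2 | h2
      · exact Or.inr (hM.2 _ h2)
      · exact Or.inl h2.symm
  rw [frattini, Order.radical]
  simp only [mem_iInf]
  exact fun M hM => key M hM

/-- the Frattini subgroup of `γ₂`, in `G` -/
def Fr (G : Type*) [Group G] : Subgroup G := (frattini (commutator G)).map (commutator G).subtype

instance : (Fr G).Normal := by unfold Fr; infer_instance

theorem pow_mem_Fr {p : ℕ} [hp : Fact p.Prime] (hG : IsPGroup p G) [Finite G] {c : G}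
    (hc : c ∈ commutator G) : c ^ p ∈ Fr G :=
  ⟨⟨c, hc⟩ ^ p, pow_mem_frattini (hG.to_subgroup _) _, rfl⟩

/-- lifting a relation -/
theorem lift_rel {N : Subgroup G} [N.Normal] {z : G} {n : ℕ}
    (h : ∃ c ∈ commutator (G ⧸ N), c ^ n = QuotientGroup.mk' N z) :
    ∃ c ∈ commutator G, (c ^ n)⁻¹ * z ∈ N := by
  obtain ⟨c, hc, h⟩ := h
  rw [← comm_quot'] at hc
  obtain ⟨c, hc, rfl⟩ := hc
  rw [← map_pow] at h
  exact ⟨c, hc, QuotientGroup.eq.1 h⟩

/-- the main reduction for two generators -/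
theorem nec_red [Finite G] {p : ℕ} [hp : Fact p.Prime] (hG : IsPGroup p G)
    (hF : Full G 2) {x₀ y₀ : G} (h₀ : closure {x₀, y₀} = ⊤) {K₀ : Subgroup G} [K₀.Normal]
    (hK : K₀ < ⁅commutator G, (⊤ : Subgroup G)⁆)
    (h : ∀ c ∈ commutator G, c ^ (if p = 2 then 4 else p) ∈ ⁅commutator G, (⊤ : Subgroup G)⁆ →
      c ^ (if p = 2 then 4 else p) ∈ K₀) :
    p = 2 ∧ ∃ N : Subgroup G, N.Normal ∧ K₀ ≤ N ∧ N < ⁅commutator G, (⊤ : Subgroup G)⁆ ∧
      ⁅⁅commutator G, (⊤ : Subgroup G)⁆, (⊤ : Subgroup G)⁆ ≤ N ∧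
      ∀ c ∈ commutator G, c ^ 2 ∈ N := by
  have : Group.IsNilpotent G := hG.isNilpotent
  obtain ⟨N, hNn, hK0, hlt, hcomm, hmax⟩ := exists_max ⁅commutator G, (⊤ : Subgroup G)⁆ K₀ hK
  obtain ⟨z, hz, hzN⟩ := SetLike.exists_of_lt hlt
  have h3 := H3_quot hG hlt hcomm hmax hz hzN
  have hfalse : ∀ n : ℕ, n = (if p = 2 then 4 else p) →
      (∃ c ∈ commutator (G ⧸ N), c ^ n = QuotientGroup.mk' N z) → False := by
    intro n hn hc'
    obtain ⟨c, hc, h4⟩ := lift_rel hc'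
    rw [hn] at h4
    apply hzN
    have h5 : c ^ (if p = 2 then 4 else p) ∈ ⁅commutator G, (⊤ : Subgroup G)⁆ := by
      have := mul_mem hz (inv_mem (hlt.le h4))
      rwa [mul_inv_rev, inv_inv, mul_inv_cancel_left] at this
    have h6 := mul_mem (hK0 (h c hc h5)) h4
    rwa [mul_inv_cancel_left] at h6
  rcases step3 (hG.to_quotient N) h3 (hF.quot (hlt.le.trans (commutator_le_left _ _)))
    (quot_pair h₀) with ⟨h2, h4⟩ | ⟨h2, h4 | h4⟩
  · exact (hfalse p (by rw [if_neg h2]) h4).elim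
  · exact (hfalse 4 (by rw [if_pos h2]) h4).elim
  · refine ⟨h2, N, hNn, hK0, hlt, hcomm, fun c hc => ?_⟩
    have h5 := h4 (QuotientGroup.mk' N c) (by rw [← comm_quot']; exact ⟨c, hc, rfl⟩)
    rw [← map_pow] at h5
    exact (QuotientGroup.eq_one_iff _).1 h5

theorem nec_two [Finite G] {p : ℕ} [hp : Fact p.Prime] (hG : IsPGroup p G)
    (hF : Full G 2) {x₀ y₀ : G} (h₀ : closure {x₀, y₀} = ⊤) :
    IsCyclic (commutator G) ∨ (p = 2 ∧ ∀ c ∈ commutator G, c ^ 2 ∈
      ⁅commutator G, (⊤ : Subgroup G)⁆) := by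
  by_cases hle : ⁅commutator G, (⊤ : Subgroup G)⁆ ≤ Fr G
  · left
    have h1 : zpowers (⟨⁅x₀, y₀⁆, comm_mem _ _⟩ : commutator G) ⊔ frattini (commutator G) = ⊤ := by
      rw [eq_top_iff]
      rintro ⟨c, hc⟩ -
      obtain ⟨i, e, he, rfl⟩ := pair_comm_form h₀ hc
      obtain ⟨f, hf, rfl⟩ := hle he
      have : (⟨⁅x₀, y₀⁆ ^ i * (commutator G).subtype f, hc⟩ : commutator G) =
        (⟨⁅x₀, y₀⁆, comm_mem _ _⟩ : commutator G) ^ i * f := by
        apply Subtype.ext
        rfl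
      rw [this]
      exact mul_mem (mem_sup_left (zpow_mem (mem_zpowers _) i)) (mem_sup_right hf)
    have h2 := frattini_nongenerating h1
    have h3 : ∀ c : commutator G, c ∈ zpowers (⟨⁅x₀, y₀⁆, comm_mem _ _⟩ : commutator G) := fun c => by
      rw [h2]; exact mem_top c
    exact ⟨⟨_, h3⟩⟩
  · right
    have hK : ⁅commutator G, (⊤ : Subgroup G)⁆ ⊓ Fr G < ⁅commutator G, (⊤ : Subgroup G)⁆ :=
      inf_le_left.lt_of_ne fun h => hle (inf_eq_left.1 h)
    obtain ⟨h2, N, -, -, hlt, -, hN⟩ := nec_red hG hF h₀ hK (by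
      intro c hc h1
      refine ⟨h1, ?_⟩
      split_ifs with h2
      · subst h2
        have := pow_mem_Fr hG (pow_mem hc 2)
        rwa [← pow_mul] at this
      · exact pow_mem_Fr hG hc)
    exact ⟨h2, fun c hc => hlt.le (hN c hc)⟩

theorem nec_cyc [Finite G] (hG : IsPGroup 2 G) (hc : IsCyclic (commutator G))
    (h : ¬ ∀ c ∈ ⁅commutator G, (⊤ : Subgroup G)⁆, ∃ b ∈ commutator G, c = b ^ 4) :
    ∀ c ∈ commutator G, c ^ 2 ∈ ⁅commutator G, (⊤ : Subgroup G)⁆ := by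
  obtain ⟨⟨w, hw⟩, hgen⟩ := hc
  have hgen' : ∀ c ∈ commutator G, ∃ i : ℤ, c = w ^ i := by
    intro c hc
    obtain ⟨i, hi⟩ := hgen ⟨c, hc⟩
    exact ⟨i, (congrArg Subtype.val hi).symm⟩
  push Not at h
  obtain ⟨c, hc, hne⟩ := h
  obtain ⟨i, rfl⟩ := hgen' c (commutator_le_left _ _ hc)
  have h4 : ¬ (4 : ℤ) ∣ i := by
    rintro ⟨k, rfl⟩
    refine hne (w ^ k) (zpow_mem hw k) ?_
    rw [← zpow_natCast, ← zpow_mul]
    congr 1
    push_cast
    ring
  have hw2 : w ^ 2 ∈ ⁅commutator G, (⊤ : Subgroup G)⁆ := by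
    have : Fact (Nat.Prime 2) := ⟨Nat.prime_two⟩
    rcases Int.even_or_odd' i with ⟨k, rfl | rfl⟩
    · refine pow_coprime_mem hG (p := 2) (n := k) ?_ ?_
      · rintro ⟨l, hl⟩
        apply h4
        exact ⟨l, by push_cast at hl; omega⟩
      · rw [← zpow_natCast, ← zpow_mul]
        exact hc
    · refine pow_mem (pow_coprime_mem hG (p := 2) (n := 2 * k + 1) ?_ hc) 2
      push_cast
      omega
  intro c hc
  obtain ⟨i, rfl⟩ := hgen' c hc
  rw [← zpow_natCast, ← zpow_mul, mul_comm, zpow_mul, zpow_natCast]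
  exact zpow_mem hw2 i

end

end Pool.Agent.Run7.h179.AC
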