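import Pool.Agent.Run7.h179.AC.F

set_option autoImplicit false
set_option linter.unusedSimpArgs false
set_option linter.deprecated false

/-! Class four: explicit computations. -/

namespace Pool.Agent.Run7.h179.AC

open Subgroup
open scoped commutatorElement

section
variable {G : Type*} [Group G]

theorem values [Finite G] {x y : G} (h : closure {x, y} = ⊤) (g : G) (S : Set G) (h1 : (1 : G) ∈ S)
    (hx : ∀ v ∈ S, MulAut.conj x v * ⁅x, g⁆ ∈ S) (hy : ∀ v ∈ S, MulAut.conj y v * ⁅y, g⁆ ∈ S) :
    ∀ k : G, ⁅k, g⁆ ∈ S := by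
  have hmul : ∀ a b : G, (∀ v ∈ S, MulAut.conj a v * ⁅a, g⁆ ∈ S) →
      (∀ v ∈ S, MulAut.conj b v * ⁅b, g⁆ ∈ S) → ∀ v ∈ S, MulAut.conj (a * b) v * ⁅a * b, g⁆ ∈ S := by
    intro a b ha hb v hv
    have := ha _ (hb v hv)
    have h2 : MulAut.conj (a * b) v * ⁅a * b, g⁆ =
        MulAut.conj a (MulAut.conj b v * ⁅b, g⁆) * ⁅a, g⁆ := by
      simp only [MulAut.conj_apply, commutatorElement_def]; group
    rwa [h2]
  have hone : ∀ v ∈ S, MulAut.conj (1 : G) v * ⁅(1 : G), g⁆ ∈ S := by
    intro v hv
    simpa using hv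
  have hpow : ∀ (a : G) (n : ℕ), (∀ v ∈ S, MulAut.conj a v * ⁅a, g⁆ ∈ S) →
      ∀ v ∈ S, MulAut.conj (a ^ n) v * ⁅a ^ n, g⁆ ∈ S := by
    intro a n ha
    induction n with
    | zero => rw [pow_zero]; exact hone
    | succ n ih => rw [pow_succ]; exact hmul _ _ ih ha
  intro k
  have hk : k ∈ closure {x, y} := by rw [h]; exact mem_top k
  have key : ∀ v ∈ S, MulAut.conj k v * ⁅k, g⁆ ∈ S := by
    induction hk using closure_induction with
    | mem a ha =>
      rcases ha with rfl | rfl
      · exact hx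
      · exact hy
    | one => exact hone
    | mul a b _ _ ha hb => exact hmul a b ha hb
    | inv a _ ha =>
      obtain ⟨n, hn⟩ := nat_pow a (-1)
      rw [zpow_neg_one] at hn
      rw [hn]
      exact hpow a n ha
  have := key 1 h1
  rwa [map_one, one_mul] at this

/-- the relations in `γ₂` for a class four group -/
structure Ctx (x y w u q t A B C : G) : Prop where
  gen : closure {x, y} = ⊤
  hw : ⁅x, y⁆ = w
  hu : ⁅x, w⁆ = u
  hq : ⁅y, w⁆ = q
  hA : ⁅x, u⁆ = A
  hB : ⁅x, q⁆ = B
  hB' : ⁅y, u⁆ = B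
  hC : ⁅y, q⁆ = C
  wu : w * u = u * w
  wq : w * q = q * w
  uq : u * q = q * u
  tc : ∀ g : G, g * t = t * g
  tt : t * t = 1
  uu : u * u = 1
  qq : q * q = 1
  ww : w * w = 1 ∨ w * w = t
  tn : t ≠ 1
  wn : w ∉ ⁅commutator G, (⊤ : Subgroup G)⁆
  tm : t ∈ ⁅commutator G, (⊤ : Subgroup G)⁆

theorem left_of {a b c : G} (h : a * b = c) (r : G) : a * (b * r) = c * r := by
  rw [← mul_assoc, h]

theorem Ctx.mem_u {x y w u q t A B C : G} (h : Ctx x y w u q t A B C) :
    u ∈ ⁅commutator G, (⊤ : Subgroup G)⁆ := by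
  rw [← h.hu, ← h.hw, commutator_comm]
  exact commutator_mem_commutator (mem_top _) (comm_mem _ _)

theorem Ctx.mem_q {x y w u q t A B C : G} (h : Ctx x y w u q t A B C) :
    q ∈ ⁅commutator G, (⊤ : Subgroup G)⁆ := by
  rw [← h.hq, ← h.hw, commutator_comm]
  exact commutator_mem_commutator (mem_top _) (comm_mem _ _)

theorem mem_of {N : Subgroup G} {a b c w : G} (ha : a ∈ N) (hb : b ∈ N) (hc : c ∈ N)
    (h : c = a * (w * b)) : w ∈ N := by
  have : w = a⁻¹ * c * b⁻¹ := by rw [h]; group
  rw [this]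
  exact mul_mem (mul_mem (inv_mem ha) hc) (inv_mem hb)

theorem Ctx.caseI' [Finite G] (hF : Full G 2) {x y w u q t : G} (h : Ctx x y w u q t t 1 1)
    (hqt : q ≠ t) : False := by
  have hu3 : u ∈ ⁅commutator G, (⊤ : Subgroup G)⁆ := h.mem_u
  have hq3 : q ∈ ⁅commutator G, (⊤ : Subgroup G)⁆ := h.mem_q
  have xw : MulAut.conj x w = u * w := by rw [MulAut.conj_apply, conj_eq, h.hu]
  have xu : MulAut.conj x u = t * u := by rw [MulAut.conj_apply, conj_eq, h.hA]
  have xq : MulAut.conj x q = q := by rw [MulAut.conj_apply, conj_eq, h.hB, one_mul]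
  have xt : MulAut.conj x t = t := by rw [MulAut.conj_apply, h.tc, mul_inv_cancel_right]
  have yw : MulAut.conj y w = q * w := by rw [MulAut.conj_apply, conj_eq, h.hq]
  have yu : MulAut.conj y u = u := by rw [MulAut.conj_apply, conj_eq, h.hB', one_mul]
  have yq : MulAut.conj y q = q := by rw [MulAut.conj_apply, conj_eq, h.hC, one_mul]
  have yt : MulAut.conj y t = t := by rw [MulAut.conj_apply, h.tc, mul_inv_cancel_right]
  have wu := h.wu; have wq := h.wq; have uq := h.uq; have uu := h.uu; have qq := h.qq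
  have tt := h.tt; have wt := h.tc w; have ut := h.tc u; have qt := h.tc q
  have wu' := left_of wu; have wq' := left_of wq; have uq' := left_of uq; have uu' := left_of uu
  have qq' := left_of qq; have tt' := left_of tt; have wt' := left_of wt; have ut' := left_of ut
  have qt' := left_of qt
  obtain ⟨k, hk⟩ := full_snd hF h.gen (commutator_le_left _ _ h.tm)
  have hS := values h.gen y
    {v | v = 1 ∨ v = q ∨ v = w ∨ v = q * w ∨ v = u * (w * w) ∨ v = q * (u * (w * w)) ∨
      v = t * (u * (w * (w * w))) ∨ v = t * (q * (u * (w * (w * w))))}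
    (Or.inl rfl) ?_ ?_ k
  · rw [hk] at hS
    have hww3 : w * w ∈ ⁅commutator G, (⊤ : Subgroup G)⁆ := by
      rcases h.ww with h1 | h1 <;> rw [h1]
      · exact one_mem _
      · exact h.tm
    have xww : MulAut.conj x (w * w) = w * w := by
      rcases h.ww with h1 | h1 <;> rw [h1]
      · exact map_one _
      · exact xt
    rcases hS with h1 | h1 | h1 | h1 | h1 | h1 | h1 | h1
    · exact h.tn h1
    · exact hqt h1.symm
    · exact h.wn (h1 ▸ h.tm)
    · exact h.wn (mem_of hq3 (one_mem _) h.tm (by rw [mul_one]; exact h1))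
    · have h2 := congrArg (MulAut.conj x) h1
      rw [map_mul, xww, xt, xu, mul_assoc, ← h1, tt] at h2
      exact h.tn h2
    · have h2 := congrArg (MulAut.conj x) h1
      rw [map_mul, map_mul, xww, xt, xu, xq, mul_assoc, qt', mul_assoc, ← h1, tt] at h2
      exact h.tn h2
    · exact h.wn (mem_of (mul_mem h.tm hu3) hww3 h.tm (by rw [mul_assoc]; exact h1))
    · exact h.wn (mem_of (mul_mem (mul_mem h.tm hq3) hu3) hww3 h.tm (by
        rw [mul_assoc, mul_assoc]; exact h1))
  · rw [h.hw]
    rcases h.ww with ww | ww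
    · have ww' := left_of ww
      rintro v (rfl | rfl | rfl | rfl | rfl | rfl | rfl | rfl) <;>
      simp only [map_mul, map_one, xw, xu, xq, xt, ww, ww', mul_assoc, wu, wq, uq, uu, qq, tt, wt, ut, qt, wu', wq', uq', uu', qq', tt', wt', ut', qt',
        mul_one, one_mul, Set.mem_setOf_eq, true_or, or_true]
    · have ww' := left_of ww
      rintro v (rfl | rfl | rfl | rfl | rfl | rfl | rfl | rfl) <;>
      simp only [map_mul, map_one, xw, xu, xq, xt, ww, ww', mul_assoc, wu, wq, uq, uu, qq, tt, wt, ut, qt, wu', wq', uq', uu', qq', tt', wt', ut', qt',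
        mul_one, one_mul, Set.mem_setOf_eq, true_or, or_true]
  · rw [commutatorElement_self]
    rcases h.ww with ww | ww
    · have ww' := left_of ww
      rintro v (rfl | rfl | rfl | rfl | rfl | rfl | rfl | rfl) <;>
      simp only [map_mul, map_one, yw, yu, yq, yt, ww, ww', mul_assoc, wu, wq, uq, uu, qq, tt, wt, ut, qt, wu', wq', uq', uu', qq', tt', wt', ut', qt',
        mul_one, one_mul, Set.mem_setOf_eq, true_or, or_true]
    · have ww' := left_of ww
      rintro v (rfl | rfl | rfl | rfl | rfl | rfl | rfl | rfl) <;>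
      simp only [map_mul, map_one, yw, yu, yq, yt, ww, ww', mul_assoc, wu, wq, uq, uu, qq, tt, wt, ut, qt, wu', wq', uq', uu', qq', tt', wt', ut', qt',
        mul_one, one_mul, Set.mem_setOf_eq, true_or, or_true]

theorem Ctx.caseII [Finite G] (hF : Full G 2) {x y w u q t : G} (h : Ctx x y w u q t 1 t 1) :
    False := by
  have hu3 : u ∈ ⁅commutator G, (⊤ : Subgroup G)⁆ := h.mem_u
  have hq3 : q ∈ ⁅commutator G, (⊤ : Subgroup G)⁆ := h.mem_q
  have xw : MulAut.conj x w = u * w := by rw [MulAut.conj_apply, conj_eq, h.hu]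
  have xu : MulAut.conj x u = u := by rw [MulAut.conj_apply, conj_eq, h.hA, one_mul]
  have xq : MulAut.conj x q = t * q := by rw [MulAut.conj_apply, conj_eq, h.hB]
  have xt : MulAut.conj x t = t := by rw [MulAut.conj_apply, h.tc, mul_inv_cancel_right]
  have yw : MulAut.conj y w = q * w := by rw [MulAut.conj_apply, conj_eq, h.hq]
  have yu : MulAut.conj y u = t * u := by rw [MulAut.conj_apply, conj_eq, h.hB']
  have yq : MulAut.conj y q = q := by rw [MulAut.conj_apply, conj_eq, h.hC, one_mul]
  have yt : MulAut.conj y t = t := by rw [MulAut.conj_apply, h.tc, mul_inv_cancel_right]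
  have wu := h.wu; have wq := h.wq; have uq := h.uq; have uu := h.uu; have qq := h.qq
  have tt := h.tt; have wt := h.tc w; have ut := h.tc u; have qt := h.tc q
  have wu' := left_of wu; have wq' := left_of wq; have uq' := left_of uq; have uu' := left_of uu
  have qq' := left_of qq; have tt' := left_of tt; have wt' := left_of wt; have ut' := left_of ut
  have qt' := left_of qt
  obtain ⟨α, hα, h1, h2⟩ := full_pair hF h.gen (commutator_le_left _ _ hu3) (one_mem _)
  have h3 := hα w
  have h4 : α w = t * w := by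
    rw [← h.hw, map_commutatorElement, h1, h2, one_mul, comm_mul_left, ← commutatorElement_inv y u,
      h.hB', h.hw, ← wu, mul_inv_cancel_right, eq_comm, ← wt, inv_eq_of_mul_eq_one_right tt]
  rw [h4] at h3
  obtain ⟨k, hk⟩ := conj_iff.1 h3
  have hS := values h.gen w {v | v = 1 ∨ v = u ∨ v = q ∨ v = t * (q * u)} (Or.inl rfl) ?_ ?_ k
  · rw [hk] at hS
    rcases hS with h1 | h1 | h1 | h1
    · exact h.tn h1
    · have h2 := congrArg (MulAut.conj y) h1
      rw [yt, yu, ← h1, tt] at h2
      exact h.tn h2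
    · have h2 := congrArg (MulAut.conj x) h1
      rw [xt, xq, ← h1, tt] at h2
      exact h.tn h2
    · have h2 : q * u = 1 := mul_eq_left.1 h1.symm
      have h3 := congrArg (MulAut.conj x) h2
      rw [map_mul, xu, xq, mul_assoc, h2, mul_one, map_one] at h3
      exact h.tn h3
  · rw [h.hu]
    rcases h.ww with ww | ww
    · have ww' := left_of ww
      rintro v (rfl | rfl | rfl | rfl) <;>
      simp only [map_mul, map_one, xw, xu, xq, xt, ww, ww', mul_assoc, wu, wq, uq, uu, qq, tt, wt, ut, qt, wu', wq', uq', uu', qq', tt', wt', ut', qt',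
        mul_one, one_mul, Set.mem_setOf_eq, true_or, or_true]
    · have ww' := left_of ww
      rintro v (rfl | rfl | rfl | rfl) <;>
      simp only [map_mul, map_one, xw, xu, xq, xt, ww, ww', mul_assoc, wu, wq, uq, uu, qq, tt, wt, ut, qt, wu', wq', uq', uu', qq', tt', wt', ut', qt',
        mul_one, one_mul, Set.mem_setOf_eq, true_or, or_true]
  · rw [h.hq]
    rcases h.ww with ww | ww
    · have ww' := left_of ww
      rintro v (rfl | rfl | rfl | rfl) <;>
      simp only [map_mul, map_one, yw, yu, yq, yt, ww, ww', mul_assoc, wu, wq, uq, uu, qq, tt, wt, ut, qt, wu', wq', uq', uu', qq', tt', wt', ut', qt',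
        mul_one, one_mul, Set.mem_setOf_eq, true_or, or_true]
    · have ww' := left_of ww
      rintro v (rfl | rfl | rfl | rfl) <;>
      simp only [map_mul, map_one, yw, yu, yq, yt, ww, ww', mul_assoc, wu, wq, uq, uu, qq, tt, wt, ut, qt, wu', wq', uq', uu', qq', tt', wt', ut', qt',
        mul_one, one_mul, Set.mem_setOf_eq, true_or, or_true]

theorem Ctx.caseIII [Finite G] (hF : Full G 2) {x y w u q t : G} (h : Ctx x y w u q t t 1 t) :
    False := by
  have hu3 : u ∈ ⁅commutator G, (⊤ : Subgroup G)⁆ := h.mem_u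
  have hq3 : q ∈ ⁅commutator G, (⊤ : Subgroup G)⁆ := h.mem_q
  have xw : MulAut.conj x w = u * w := by rw [MulAut.conj_apply, conj_eq, h.hu]
  have xu : MulAut.conj x u = t * u := by rw [MulAut.conj_apply, conj_eq, h.hA]
  have xq : MulAut.conj x q = q := by rw [MulAut.conj_apply, conj_eq, h.hB, one_mul]
  have xt : MulAut.conj x t = t := by rw [MulAut.conj_apply, h.tc, mul_inv_cancel_right]
  have yw : MulAut.conj y w = q * w := by rw [MulAut.conj_apply, conj_eq, h.hq]
  have yu : MulAut.conj y u = u := by rw [MulAut.conj_apply, conj_eq, h.hB', one_mul]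
  have yq : MulAut.conj y q = t * q := by rw [MulAut.conj_apply, conj_eq, h.hC]
  have yt : MulAut.conj y t = t := by rw [MulAut.conj_apply, h.tc, mul_inv_cancel_right]
  have wu := h.wu; have wq := h.wq; have uq := h.uq; have uu := h.uu; have qq := h.qq
  have tt := h.tt; have wt := h.tc w; have ut := h.tc u; have qt := h.tc q
  have wu' := left_of wu; have wq' := left_of wq; have uq' := left_of uq; have uu' := left_of uu
  have qq' := left_of qq; have tt' := left_of tt; have wt' := left_of wt; have ut' := left_of ut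
  have qt' := left_of qt
  have xw1 : x * w = u * (w * x) := by rw [← mul_assoc, ← xw, MulAut.conj_apply, inv_mul_cancel_right]
  have xu1 : x * u = t * (u * x) := by rw [← mul_assoc, ← xu, MulAut.conj_apply, inv_mul_cancel_right]
  have xq1 : x * q = q * x := by
    conv_rhs => rw [← xq, MulAut.conj_apply, inv_mul_cancel_right]
  have yw1 : y * w = q * (w * y) := by rw [← mul_assoc, ← yw, MulAut.conj_apply, inv_mul_cancel_right]
  have yu1 : y * u = u * y := by
    conv_rhs => rw [← yu, MulAut.conj_apply, inv_mul_cancel_right]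
  have yq1 : y * q = t * (q * y) := by rw [← mul_assoc, ← yq, MulAut.conj_apply, inv_mul_cancel_right]
  have xy1 : x * y = w * (y * x) := by rw [← mul_assoc, ← h.hw, commutatorElement_def]; group
  have xt1 := h.tc x; have yt1 := h.tc y
  have xw2 := left_of xw1; have xu2 := left_of xu1; have xq2 := left_of xq1
  have yw2 := left_of yw1; have yu2 := left_of yu1; have yq2 := left_of yq1
  have xy2 := left_of xy1; have xt2 := left_of xt1; have yt2 := left_of yt1
  obtain ⟨α, hα, h1, h2⟩ := full_pair hF h.gen (commutator_le_left _ _ hu3) (one_mem _)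
  have h3 := hα (x * (x * (y * y)))
  have h4 : α (x * (x * (y * y))) = t * (x * (x * (y * y))) := by
    rcases h.ww with ww | ww
    · have ww' := left_of ww
      simp only [map_mul, h1, h2, xw1, xu1, xq1, yw1, yu1, yq1, xy1, xt1, yt1, xw2, xu2, xq2, yw2,
        yu2, yq2, xy2, xt2, yt2, ww, ww', mul_assoc, wu, wq, uq, uu, qq, tt, wt, ut, qt, wu', wq', uq', uu', qq', tt', wt', ut', qt',
        mul_one, one_mul, Set.mem_setOf_eq, true_or, or_true]
    · have ww' := left_of ww
      simp only [map_mul, h1, h2, xw1, xu1, xq1, yw1, yu1, yq1, xy1, xt1, yt1, xw2, xu2, xq2, yw2,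
        yu2, yq2, xy2, xt2, yt2, ww, ww', mul_assoc, wu, wq, uq, uu, qq, tt, wt, ut, qt, wu', wq', uq', uu', qq', tt', wt', ut', qt',
        mul_one, one_mul, Set.mem_setOf_eq, true_or, or_true]
  rw [h4] at h3
  obtain ⟨k, hk⟩ := conj_iff.1 h3
  have eq_comm' : ∀ a b c : G, a * b = c * (b * a) → ⁅a, b⁆ = c := by
    intro a b c hc
    rw [commutatorElement_def, hc]; group
  have hxg : ⁅x, x * (x * (y * y))⁆ = q * (w * w) := by
    apply eq_comm'
    rcases h.ww with ww | ww
    · have ww' := left_of ww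
      simp only [xw1, xu1, xq1, yw1, yu1, yq1, xy1, xt1, yt1, xw2, xu2, xq2, yw2,
        yu2, yq2, xy2, xt2, yt2, ww, ww', mul_assoc, wu, wq, uq, uu, qq, tt, wt, ut, qt, wu', wq', uq', uu', qq', tt', wt', ut', qt',
        mul_one, one_mul, Set.mem_setOf_eq, true_or, or_true]
    · have ww' := left_of ww
      simp only [xw1, xu1, xq1, yw1, yu1, yq1, xy1, xt1, yt1, xw2, xu2, xq2, yw2,
        yu2, yq2, xy2, xt2, yt2, ww, ww', mul_assoc, wu, wq, uq, uu, qq, tt, wt, ut, qt, wu', wq', uq', uu', qq', tt', wt', ut', qt',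
        mul_one, one_mul, Set.mem_setOf_eq, true_or, or_true]
  have hyg : ⁅y, x * (x * (y * y))⁆ = u * (w * w) := by
    apply eq_comm'
    rcases h.ww with ww | ww
    · have ww' := left_of ww
      simp only [xw1, xu1, xq1, yw1, yu1, yq1, xy1, xt1, yt1, xw2, xu2, xq2, yw2,
        yu2, yq2, xy2, xt2, yt2, ww, ww', mul_assoc, wu, wq, uq, uu, qq, tt, wt, ut, qt, wu', wq', uq', uu', qq', tt', wt', ut', qt',
        mul_one, one_mul, Set.mem_setOf_eq, true_or, or_true]
    · have ww' := left_of ww
      simp only [xw1, xu1, xq1, yw1, yu1, yq1, xy1, xt1, yt1, xw2, xu2, xq2, yw2,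
        yu2, yq2, xy2, xt2, yt2, ww, ww', mul_assoc, wu, wq, uq, uu, qq, tt, wt, ut, qt, wu', wq', uq', uu', qq', tt', wt', ut', qt',
        mul_one, one_mul, Set.mem_setOf_eq, true_or, or_true]
  have hS := values h.gen (x * (x * (y * y)))
    {v | v = 1 ∨ v = q * (w * w) ∨ v = u * (w * w) ∨ v = t * (q * u)} (Or.inl rfl) ?_ ?_ k
  · rw [hk] at hS
    have xww : MulAut.conj x (w * w) = w * w := by
      rcases h.ww with h1 | h1 <;> rw [h1]
      · exact map_one _
      · exact xt
    have yww : MulAut.conj y (w * w) = w * w := by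
      rcases h.ww with h1 | h1 <;> rw [h1]
      · exact map_one _
      · exact yt
    rcases hS with h1 | h1 | h1 | h1
    · exact h.tn h1
    · have h2 := congrArg (MulAut.conj y) h1
      rw [map_mul, yww, yt, yq, mul_assoc, ← h1, tt] at h2
      exact h.tn h2
    · have h2 := congrArg (MulAut.conj x) h1
      rw [map_mul, xww, xt, xu, mul_assoc, ← h1, tt] at h2
      exact h.tn h2
    · have h2 : q * u = 1 := mul_eq_left.1 h1.symm
      have h3 := congrArg (MulAut.conj x) h2
      rw [map_mul, xu, xq, qt', mul_assoc, h2, mul_one, map_one] at h3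
      exact h.tn h3
  · rw [hxg]
    rcases h.ww with ww | ww
    · have ww' := left_of ww
      rintro v (rfl | rfl | rfl | rfl) <;>
      simp only [map_mul, map_one, xw, xu, xq, xt, ww, ww', mul_assoc, wu, wq, uq, uu, qq, tt, wt, ut, qt, wu', wq', uq', uu', qq', tt', wt', ut', qt',
        mul_one, one_mul, Set.mem_setOf_eq, true_or, or_true]
    · have ww' := left_of ww
      rintro v (rfl | rfl | rfl | rfl) <;>
      simp only [map_mul, map_one, xw, xu, xq, xt, ww, ww', mul_assoc, wu, wq, uq, uu, qq, tt, wt, ut, qt, wu', wq', uq', uu', qq', tt', wt', ut', qt',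
        mul_one, one_mul, Set.mem_setOf_eq, true_or, or_true]
  · rw [hyg]
    rcases h.ww with ww | ww
    · have ww' := left_of ww
      rintro v (rfl | rfl | rfl | rfl) <;>
      simp only [map_mul, map_one, yw, yu, yq, yt, ww, ww', mul_assoc, wu, wq, uq, uu, qq, tt, wt, ut, qt, wu', wq', uq', uu', qq', tt', wt', ut', qt',
        mul_one, one_mul, Set.mem_setOf_eq, true_or, or_true]
    · have ww' := left_of ww
      rintro v (rfl | rfl | rfl | rfl) <;>
      simp only [map_mul, map_one, yw, yu, yq, yt, ww, ww', mul_assoc, wu, wq, uq, uu, qq, tt, wt, ut, qt, wu', wq', uq', uu', qq', tt', wt', ut', qt',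
        mul_one, one_mul, Set.mem_setOf_eq, true_or, or_true]

end

end Pool.Agent.Run7.h179.AC
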