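import Pool.Agent.Run7.h179.AC.G

set_option autoImplicit false

/-! No extremal groups of class four. -/

namespace Pool.Agent.Run7.h179.AC

open Subgroup
open scoped commutatorElement

section
variable {G : Type*} [Group G]

/-- the situation in class four -/
structure D4 (G : Type*) [Group G] (t : G) : Prop where
  tc : ∀ g : G, g * t = t * g
  tt : t * t = 1
  tn : t ≠ 1
  tm : t ∈ ⁅commutator G, (⊤ : Subgroup G)⁆
  sq : ∀ c ∈ commutator G, c * c = 1 ∨ c * c = t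
  c4 : ∀ u ∈ ⁅commutator G, (⊤ : Subgroup G)⁆, ∀ g : G, ⁅g, u⁆ = 1 ∨ ⁅g, u⁆ = t
  ab : ∀ a ∈ commutator G, ∀ b ∈ commutator G, a * b = b * a
  ne4 : ∃ u ∈ ⁅commutator G, (⊤ : Subgroup G)⁆, ∃ g : G, ⁅g, u⁆ ≠ 1
  wn : ∀ x y : G, closure {x, y} = ⊤ → ⁅x, y⁆ ∉ ⁅commutator G, (⊤ : Subgroup G)⁆

theorem cen_of_pair {x y : G} (h : closure {x, y} = ⊤) {a : G} (h1 : x * a = a * x)
    (h2 : y * a = a * y) (g : G) : g * a = a * g := by
  have h4 : closure {x, y} ≤ centralizer {a} := by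
    rw [closure_le]
    rintro g (rfl | rfl)
    · exact mem_centralizer_iff.2 (by rintro _ rfl; exact h1.symm)
    · exact mem_centralizer_iff.2 (by rintro _ rfl; exact h2.symm)
  have h5 : g ∈ centralizer {a} := h4 (by rw [h]; exact mem_top g)
  exact (mem_centralizer_iff.1 h5 _ rfl).symm

theorem mem3 {a b : G} (hb : b ∈ commutator G) : ⁅a, b⁆ ∈ ⁅commutator G, (⊤ : Subgroup G)⁆ := by
  rw [commutator_comm]
  exact commutator_mem_commutator (mem_top _) hb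

variable {t : G} (h : D4 G t)
include h

theorem D4.com {a b : G} (ha : a ∈ commutator G) (hb : b ∈ commutator G) : Commute a b :=
  h.ab a ha b hb

theorem D4.cmul (g : G) {a b : G} (ha : a ∈ commutator G) : ⁅g, a * b⁆ = ⁅g, a⁆ * ⁅g, b⁆ := by
  rw [comm_mul_right]
  congr 1
  exact conj_of_comm (h.ab _ ha _ (comm_mem _ _))

theorem D4.cinv (g : G) {a : G} (ha : a ∈ commutator G) : ⁅g, a⁻¹⁆ = ⁅g, a⁆⁻¹ := by
  have h1 := h.cmul g ha (b := a⁻¹)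
  rw [mul_inv_cancel, commutatorElement_one_right] at h1
  exact (inv_eq_of_mul_eq_one_right h1.symm).symm

theorem D4.ct (g : G) : ⁅g, t⁆ = 1 := commutatorElement_eq_one_iff_mul_comm.2 (h.tc g)

theorem D4.symB (x y : G) : ⁅x, ⁅y, ⁅x, y⁆⁆⁆ = ⁅y, ⁅x, ⁅x, y⁆⁆⁆ := by
  have hw := comm_mem x y
  have hc := (inferInstance : (commutator G).Normal)
  have e1 : ⁅x, ⁅y, ⁅x, y⁆⁆⁆ = (x * y * ⁅x, y⁆ * (x * y)⁻¹) * (x * ⁅x, y⁆ * x⁻¹)⁻¹ *
      (⁅x, y⁆ * (y * ⁅x, y⁆ * y⁻¹)⁻¹) := by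
    simp only [commutatorElement_def]; group
  have e2 : ⁅y, ⁅x, ⁅x, y⁆⁆⁆ = (y * x * ⁅x, y⁆ * (y * x)⁻¹) * (y * ⁅x, y⁆ * y⁻¹)⁻¹ *
      (⁅x, y⁆ * (x * ⁅x, y⁆ * x⁻¹)⁻¹) := by
    simp only [commutatorElement_def]; group
  have e3 : x * y * ⁅x, y⁆ * (x * y)⁻¹ = y * x * ⁅x, y⁆ * (y * x)⁻¹ := by
    have : x * y * ⁅x, y⁆ * (x * y)⁻¹ = ⁅x, y⁆ * (y * x * ⁅x, y⁆ * (y * x)⁻¹) * ⁅x, y⁆⁻¹ := by
      simp only [commutatorElement_def]; group
    rw [this]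
    exact conj_of_comm (h.ab _ hw _ (hc.conj_mem _ hw _))
  have c1 : x * ⁅x, y⁆ * x⁻¹ ∈ commutator G := hc.conj_mem _ hw _
  have c2 : y * ⁅x, y⁆ * y⁻¹ ∈ commutator G := hc.conj_mem _ hw _
  rw [e1, e2, e3]
  generalize y * x * ⁅x, y⁆ * (y * x)⁻¹ = a
  generalize x * ⁅x, y⁆ * x⁻¹ = b at c1
  generalize y * ⁅x, y⁆ * y⁻¹ = c at c2
  generalize ⁅x, y⁆ = w at hw
  rw [mul_assoc, mul_assoc, ← mul_assoc b⁻¹, ← mul_assoc c⁻¹, h.ab _ (inv_mem c1) _ hw,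
    h.ab _ (inv_mem c2) _ hw, mul_assoc, mul_assoc, h.ab _ (inv_mem c1) _ (inv_mem c2)]

theorem D4.ctx {x y : G} (hxy : closure {x, y} = ⊤) :
    Ctx x y ⁅x, y⁆ ⁅x, ⁅x, y⁆⁆ ⁅y, ⁅x, y⁆⁆ t ⁅x, ⁅x, ⁅x, y⁆⁆⁆ ⁅x, ⁅y, ⁅x, y⁆⁆⁆ ⁅y, ⁅y, ⁅x, y⁆⁆⁆ := by
  have key : ∀ g : G, ⁅g, ⁅x, y⁆⁆ * ⁅g, ⁅x, y⁆⁆ = 1 := by
    intro g
    rw [← h.cmul g (comm_mem _ _)]
    rcases h.sq _ (comm_mem x y) with h1 | h1 <;> rw [h1]
    · exact commutatorElement_one_right g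
    · exact h.ct g
  exact
  { gen := hxy
    hw := rfl
    hu := rfl
    hq := rfl
    hA := rfl
    hB := rfl
    hB' := (h.symB x y).symm
    hC := rfl
    wu := h.ab _ (comm_mem _ _) _ (comm_mem _ _)
    wq := h.ab _ (comm_mem _ _) _ (comm_mem _ _)
    uq := h.ab _ (comm_mem _ _) _ (comm_mem _ _)
    tc := h.tc
    tt := h.tt
    uu := key x
    qq := key y
    ww := h.sq _ (comm_mem _ _)
    tn := h.tn
    wn := h.wn _ _ hxy
    tm := h.tm }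

/-- not all the values are trivial -/
theorem D4.nonzero {x y : G} (hxy : closure {x, y} = ⊤) (hA : ⁅x, ⁅x, ⁅x, y⁆⁆⁆ = 1)
    (hB : ⁅x, ⁅y, ⁅x, y⁆⁆⁆ = 1) (hC : ⁅y, ⁅y, ⁅x, y⁆⁆⁆ = 1) : False := by
  have hB' : ⁅y, ⁅x, ⁅x, y⁆⁆⁆ = 1 := by rw [← h.symB]; exact hB
  have hu : ⁅x, ⁅x, y⁆⁆ ∈ center G := mem_center_iff.2 (cen_of_pair hxy
    (commutatorElement_eq_one_iff_mul_comm.1 hA) (commutatorElement_eq_one_iff_mul_comm.1 hB'))
  have hq : ⁅y, ⁅x, y⁆⁆ ∈ center G := mem_center_iff.2 (cen_of_pair hxy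
    (commutatorElement_eq_one_iff_mul_comm.1 hB) (commutatorElement_eq_one_iff_mul_comm.1 hC))
  have hw : ∀ g : G, ⁅g, ⁅x, y⁆⁆ ∈ center G := by
    intro g
    have h1 := cen_of_pair (quot_pair (N := center G) hxy)
      (a := QuotientGroup.mk' (center G) ⁅x, y⁆) (by
        rw [← commutatorElement_eq_one_iff_mul_comm, ← map_commutatorElement]
        exact (QuotientGroup.eq_one_iff _).2 hu) (by
        rw [← commutatorElement_eq_one_iff_mul_comm, ← map_commutatorElement]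
        exact (QuotientGroup.eq_one_iff _).2 hq) (QuotientGroup.mk' (center G) g)
    rw [← commutatorElement_eq_one_iff_mul_comm, ← map_commutatorElement] at h1
    exact (QuotientGroup.eq_one_iff _).1 h1
  have hpow : ∀ (g : G) (i : ℤ), ⁅g, ⁅x, y⁆ ^ i⁆ ∈ center G := by
    intro g i
    have h1 : Commute (QuotientGroup.mk' (center G) g) (QuotientGroup.mk' (center G) ⁅x, y⁆) := by
      show _ * _ = _ * _
      rw [← commutatorElement_eq_one_iff_mul_comm, ← map_commutatorElement]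
      exact (QuotientGroup.eq_one_iff _).2 (hw g)
    have h2 := h1.zpow_right i
    rw [← map_zpow] at h2
    have h3 := commutatorElement_eq_one_iff_mul_comm.2 h2
    rw [← map_commutatorElement] at h3
    exact (QuotientGroup.eq_one_iff _).1 h3
  have h3 : ⁅commutator G, (⊤ : Subgroup G)⁆ ≤ center G := by
    rw [commutator_comm, commutator_le]
    intro g _ c hc
    obtain ⟨i, e, he, rfl⟩ := pair_comm_form hxy hc
    rw [comm_mul_right]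
    refine mul_mem (hpow g i) (Normal.conj_mem inferInstance _ ?_ _)
    rcases h.c4 e he g with h4 | h4 <;> rw [h4]
    · exact one_mem _
    · exact mem_center_iff.2 h.tc
  obtain ⟨u, hu', g, hg⟩ := h.ne4
  exact hg (commutatorElement_eq_one_iff_mul_comm.2 (mem_center_iff.1 (h3 hu') g))

theorem D4.noI [Finite G] (hF : Full G 2) {x y : G} (hxy : closure {x, y} = ⊤)
    (hA : ⁅x, ⁅x, ⁅x, y⁆⁆⁆ = t) (hB : ⁅x, ⁅y, ⁅x, y⁆⁆⁆ = 1) (hC : ⁅y, ⁅y, ⁅x, y⁆⁆⁆ = 1) :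
    False := by
  by_cases hq : ⁅y, ⁅x, y⁆⁆ = t
  · have hc := h.ctx hxy
    have e1 : ⁅x, y * (x * x)⁆ = ⁅x, y⁆ := by
      rw [comm_mul_right]
      have : ⁅x, x * x⁆ = 1 := by rw [commutatorElement_def]; group
      rw [this, mul_one, mul_inv_cancel, mul_one]
    have e2 : ⁅y * (x * x), ⁅x, y⁆⁆ = 1 := by
      rw [comm_mul_left, comm_mul_left, conj_eq x ⁅x, ⁅x, y⁆⁆, hA, mul_assoc t, hc.uu, mul_one, h.tc y,
        mul_inv_cancel_right, hq, h.tt]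
    have hxy' : closure {x, y * (x * x)} = ⊤ := by
      have q1 : x ∈ closure {x, y * (x * x)} := subset_closure (Or.inl rfl)
      have q2 : y * (x * x) ∈ closure {x, y * (x * x)} := subset_closure (Or.inr rfl)
      refine pair_of_mem hxy q1 ?_
      have := mul_mem q2 (inv_mem (mul_mem q1 q1))
      rwa [mul_inv_cancel_right] at this
    have hc' := h.ctx hxy'
    rw [e1, e2, hA, commutatorElement_one_right, commutatorElement_one_right] at hc'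
    exact hc'.caseI' hF (fun h1 => h.tn h1.symm)
  · have hc := h.ctx hxy
    rw [hA, hB, hC] at hc
    exact hc.caseI' hF hq

theorem D4.noII [Finite G] (hF : Full G 2) {x y : G} (hxy : closure {x, y} = ⊤)
    (hA : ⁅x, ⁅x, ⁅x, y⁆⁆⁆ = 1) (hB : ⁅x, ⁅y, ⁅x, y⁆⁆⁆ = t) (hC : ⁅y, ⁅y, ⁅x, y⁆⁆⁆ = 1) :
    False := by
  have hc := h.ctx hxy
  rw [hA, hB, hC] at hc
  exact hc.caseII hF

theorem D4.noIII [Finite G] (hF : Full G 2) {x y : G} (hxy : closure {x, y} = ⊤)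
    (hA : ⁅x, ⁅x, ⁅x, y⁆⁆⁆ = t) (hB : ⁅x, ⁅y, ⁅x, y⁆⁆⁆ = 1) (hC : ⁅y, ⁅y, ⁅x, y⁆⁆⁆ = t) :
    False := by
  have hc := h.ctx hxy
  rw [hA, hB, hC] at hc
  exact hc.caseIII hF

theorem D4.noA [Finite G] (hF : Full G 2) {x y : G} (hxy : closure {x, y} = ⊤)
    (hA : ⁅x, ⁅x, ⁅x, y⁆⁆⁆ = t) : False := by
  rcases h.c4 _ (mem3 (a := y) (comm_mem x y)) x with hB | hB
  · rcases h.c4 _ (mem3 (a := y) (comm_mem x y)) y with hC | hC
    · exact h.noI hF hxy hA hB hC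
    · exact h.noIII hF hxy hA hB hC
  · have hB' : ⁅y, ⁅x, ⁅x, y⁆⁆⁆ = t := by rw [← h.symB]; exact hB
    have hu2 : ⁅x, ⁅x, y⁆⁆ ∈ commutator G := comm_mem _ _
    have hq2 : ⁅y, ⁅x, y⁆⁆ ∈ commutator G := comm_mem _ _
    have ht2 : t ∈ commutator G := commutator_le_left _ _ h.tm
    have hxy' : closure {x, x * y} = ⊤ := by
      have q1 : x ∈ closure {x, x * y} := subset_closure (Or.inl rfl)
      have q2 : x * y ∈ closure {x, x * y} := subset_closure (Or.inr rfl)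
      refine pair_of_mem hxy q1 ?_
      have := mul_mem (inv_mem q1) q2
      rwa [inv_mul_cancel_left] at this
    have e1 : ⁅x, x * y⁆ = ⁅x, ⁅x, y⁆⁆ * ⁅x, y⁆ := by
      rw [comm_mul_right, commutatorElement_self, one_mul, conj_eq]
    have e2 : ⁅x, ⁅x, x * y⁆⁆ = t * ⁅x, ⁅x, y⁆⁆ := by
      rw [e1, h.cmul x hu2, hA]
    have e3 : ⁅x * y, ⁅x, x * y⁆⁆ = ⁅y, ⁅x, y⁆⁆ * (t * ⁅x, ⁅x, y⁆⁆) := by
      rw [comm_mul_left, e2]
      congr 1
      rw [e1, h.cmul y hu2, hB', conj_eq, h.cmul x ht2, h.ct, one_mul, hB, ← mul_assoc, h.tt,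
        one_mul]
    have eA : ⁅x, ⁅x, ⁅x, x * y⁆⁆⁆ = t := by
      rw [e2, h.cmul x ht2, h.ct, one_mul, hA]
    have eB : ⁅x, ⁅x * y, ⁅x, x * y⁆⁆⁆ = 1 := by
      rw [e3, h.cmul x hq2, h.cmul x ht2, h.ct, one_mul, hA, hB, h.tt]
    rcases h.c4 _ (mem3 (a := x * y) (comm_mem x (x * y))) (x * y) with hC | hC
    · exact h.noI hF hxy' eA eB hC
    · exact h.noIII hF hxy' eA eB hC

theorem D4.false [Finite G] (hF : Full G 2) {x y : G} (hxy : closure {x, y} = ⊤) : False := by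
  rcases h.c4 _ (mem3 (a := x) (comm_mem x y)) x with hA | hA
  · rcases h.c4 _ (mem3 (a := y) (comm_mem x y)) y with hC | hC
    · rcases h.c4 _ (mem3 (a := y) (comm_mem x y)) x with hB | hB
      · exact h.nonzero hxy hA hB hC
      · exact h.noII hF hxy hA hB hC
    · refine h.noA hF (pair_swap hxy) ?_
      rw [← commutatorElement_inv x y, h.cinv y (comm_mem _ _), h.cinv y (comm_mem _ _), hC]
      exact inv_eq_of_mul_eq_one_right h.tt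
  · exact h.noA hF hxy hA

end

end Pool.Agent.Run7.h179.AC
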