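import Pool.Agent.Run7.h179.AC.H

set_option autoImplicit false

/-! The exceptional case for `p = 2`. -/

namespace Pool.Agent.Run7.h179.AC

open Subgroup
open scoped commutatorElement

universe u

section
variable {G : Type*} [Group G]

theorem exists_cen [Finite G] {p : ℕ} [hp : Fact p.Prime] (hG : IsPGroup p G) {K : Subgroup G}
    [K.Normal] (hK : K ≠ ⊥) : ∃ t ∈ K, t ≠ 1 ∧ t ^ p = 1 ∧ ∀ g : G, g * t = t * g := by
  have : Group.IsNilpotent G := hG.isNilpotent
  obtain ⟨M, ⟨⟨hMn, hMK, hM⟩, hmin⟩⟩ := (Set.toFinite {M : Subgroup G | M.Normal ∧ M ≤ K ∧ M ≠ ⊥}).exists_minimal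
    ⟨K, inferInstance, le_rfl, hK⟩
  have hcomm : ⁅M, (⊤ : Subgroup G)⁆ = ⊥ := by
    by_contra hc
    have h1 := hmin (y := ⁅M, (⊤ : Subgroup G)⁆) ⟨inferInstance, (commutator_le_left _ _).trans hMK, hc⟩
      (commutator_le_left _ _)
    have h2 : M ≤ ⊥ := nil_lemma (by rw [sup_bot_eq]; exact h1)
    exact hM (le_bot_iff.1 h2)
  obtain ⟨m, hm, hm1⟩ : ∃ m ∈ M, m ≠ 1 := by
    by_contra hc
    push Not at hc
    exact hM ((eq_bot_iff_forall M).2 hc)
  have hex := hG m
  classical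
  obtain ⟨k, hk⟩ : ∃ k, k = Nat.find hex := ⟨_, rfl⟩
  have h1 : m ^ p ^ k = 1 := by rw [hk]; exact Nat.find_spec hex
  have h2 : ∀ j < k, m ^ p ^ j ≠ 1 := fun j hj => Nat.find_min hex (hk ▸ hj)
  cases k with
  | zero => rw [pow_zero, pow_one] at h1; exact absurd h1 hm1
  | succ k =>
    refine ⟨m ^ p ^ k, hMK (pow_mem hm _), h2 k (Nat.lt_succ_self k), ?_, ?_⟩
    · rw [← pow_mul, ← pow_succ, h1]
    · intro g
      have h3 : ⁅m ^ p ^ k, g⁆ ∈ ⁅M, (⊤ : Subgroup G)⁆ :=
        commutator_mem_commutator (pow_mem hm _) (mem_top g)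
      rw [hcomm, mem_bot, commutatorElement_eq_one_iff_mul_comm] at h3
      exact h3.symm

theorem zpow_two {t : G} (ht : t ^ 2 = 1) {c : G} (hc : c ∈ zpowers t) : c = 1 ∨ c = t := by
  obtain ⟨i, rfl⟩ := hc
  show t ^ i = 1 ∨ t ^ i = t
  rcases Int.even_or_odd' i with ⟨k, rfl | rfl⟩
  · left
    rw [zpow_mul, zpow_ofNat, ht, one_zpow]
  · right
    rw [zpow_add, zpow_one, zpow_mul, zpow_ofNat, ht, one_zpow, one_mul]

theorem normal_zpowers {t : G} (ht : ∀ g : G, g * t = t * g) : (zpowers t).Normal := by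
  constructor
  rintro _ ⟨i, rfl⟩ g
  refine ⟨i, ?_⟩
  show t ^ i = g * t ^ i * g⁻¹
  rw [((show Commute g t from ht g).zpow_right i).eq, mul_inv_cancel_right]

end

theorem exc_case : ∀ n : ℕ, ∀ (G : Type u) [Group G] [Finite G], Nat.card G = n → IsPGroup 2 G →
    Full G 2 → ∀ x₀ y₀ : G, closure {x₀, y₀} = ⊤ →
    (∀ c ∈ commutator G, c ^ 2 ∈ ⁅commutator G, (⊤ : Subgroup G)⁆) →
    ⁅⁅commutator G, (⊤ : Subgroup G)⁆, (⊤ : Subgroup G)⁆ = ⊥ ∧ ∀ c ∈ commutator G, c ^ 2 = 1 := by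
  intro n
  induction n using Nat.strong_induction_on with
  | _ n IH =>
  intro G _ _ hn hG hF x₀ y₀ h₀ hsq
  have hp2 : Fact (Nat.Prime 2) := ⟨Nat.prime_two⟩
  have hnil : Group.IsNilpotent G := hG.isNilpotent
  by_cases h3 : ⁅commutator G, (⊤ : Subgroup G)⁆ = ⊥
  · refine ⟨by rw [h3, commutator_bot_left], fun c hc => ?_⟩
    have := hsq c hc
    rw [h3] at this
    exact mem_bot.1 this
  obtain ⟨t, ht3, htn, ht2, htc⟩ := exists_cen hG h3
  -- the inductive hypothesis for quotients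
  have hM : ∀ M : Subgroup G, M.Normal → M ≠ ⊥ → M ≤ ⁅commutator G, (⊤ : Subgroup G)⁆ →
      ⁅⁅commutator G, (⊤ : Subgroup G)⁆, (⊤ : Subgroup G)⁆ ≤ M ∧ ∀ c ∈ commutator G, c ^ 2 ∈ M := by
    intro M hMn hM1 hM3
    have hcard : Nat.card (G ⧸ M) < n := by
      rw [← hn, card_eq_card_quotient_mul_card_subgroup M]
      have h1 : 1 < Nat.card M := one_lt_card_iff_ne_bot M |>.2 hM1
      have h2 : 0 < Nat.card (G ⧸ M) := Nat.card_pos
      nlinarith
    have hle : M ≤ commutator G := hM3.trans (commutator_le_left _ _)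
    obtain ⟨h4, h5⟩ := IH _ hcard (G ⧸ M) rfl (hG.to_quotient M) (hF.quot hle)
      (QuotientGroup.mk' M x₀) (QuotientGroup.mk' M y₀) (quot_pair h₀) (by
        intro c hc
        rw [← comm_quot' M] at hc ⊢
        obtain ⟨c, hc, rfl⟩ := hc
        rw [← comm_quot M, ← map_pow]
        exact ⟨_, hsq c hc, rfl⟩)
    constructor
    · rw [← comm_quot' M, ← comm_quot M, ← comm_quot M] at h4
      rw [Subgroup.map_eq_bot_iff, QuotientGroup.ker_mk'] at h4
      exact h4
    · intro c hc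
      have h6 := h5 (QuotientGroup.mk' M c) (by rw [← comm_quot']; exact ⟨c, hc, rfl⟩)
      rw [← map_pow] at h6
      exact (QuotientGroup.eq_one_iff _).1 h6
  have hT := hM (zpowers t) (normal_zpowers htc) (fun h => htn (zpowers_eq_bot.1 h))
    (zpowers_le.2 ht3)
  by_cases h4 : ⁅⁅commutator G, (⊤ : Subgroup G)⁆, (⊤ : Subgroup G)⁆ = ⊥
  · refine ⟨h4, ?_⟩
    by_contra hc
    push Not at hc
    obtain ⟨c, hc, hcne⟩ := hc
    have hct : c ^ 2 = t := (zpow_two ht2 (hT.2 c hc)).resolve_left hcne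
    have hcen : ∀ e ∈ ⁅commutator G, (⊤ : Subgroup G)⁆, ∀ g : G, g * e = e * g := by
      intro e he g
      have : ⁅e, g⁆ ∈ ⁅⁅commutator G, (⊤ : Subgroup G)⁆, (⊤ : Subgroup G)⁆ :=
        commutator_mem_commutator he (mem_top g)
      rw [h4, mem_bot, commutatorElement_eq_one_iff_mul_comm] at this
      exact this.symm
    have hexp : ∀ e ∈ ⁅commutator G, (⊤ : Subgroup G)⁆, e ^ 2 = 1 := by
      intro e he
      have hcl : ⁅commutator G, (⊤ : Subgroup G)⁆ = closure {g | ∃ g₁ ∈ commutator G,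
        ∃ g₂ ∈ (⊤ : Subgroup G), ⁅g₁, g₂⁆ = g} := rfl
      have key : ∀ e ∈ closure {g | ∃ g₁ ∈ commutator G,
        ∃ g₂ ∈ (⊤ : Subgroup G), ⁅g₁, g₂⁆ = g}, e ^ 2 = 1 := by
        intro e he
        induction he using closure_induction with
        | mem a ha =>
          obtain ⟨a, ha, b, -, rfl⟩ := ha
          have h5 : ⁅a, b⁆ * ⁅a, b⁆ = ⁅a * a, b⁆ := by
            rw [comm_mul_left, hcen _ (commutator_mem_commutator ha (mem_top b)) a,
              mul_inv_cancel_right]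
          rw [pow_two, h5, ← pow_two]
          rcases zpow_two ht2 (hT.2 a ha) with h6 | h6 <;> rw [h6]
          · exact commutatorElement_one_left b
          · exact commutatorElement_eq_one_iff_mul_comm.2 (htc b).symm
        | one => exact one_pow 2
        | mul a b ha hb ha' hb' =>
          have : Commute a b := hcen b (by rw [hcl]; exact hb) a
          rw [this.mul_pow, ha', hb', one_mul]
        | inv a ha ha' => rw [inv_pow, ha', inv_one]
      exact key e (by rw [← hcl]; exact he)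
    have hgen : ∀ e ∈ ⁅commutator G, (⊤ : Subgroup G)⁆, e = 1 ∨ e = t := by
      intro e he
      by_cases he1 : e = 1
      · exact Or.inl he1
      · right
        have h5 := (hM (zpowers e) (normal_zpowers (hcen e he)) (fun h => he1 (zpowers_eq_bot.1 h))
          (zpowers_le.2 he)).2 c hc
        rw [hct] at h5
        exact ((zpow_two (hexp e he) h5).resolve_left htn).symm
    have hH : H3 2 G t := by
      refine ⟨htn, ht2, htc, ht3, fun e he => ?_⟩
      rcases hgen e he with h5 | h5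
      · exact ⟨0, by rw [h5, zpow_zero]⟩
      · exact ⟨1, by rw [h5, zpow_one]⟩
    rcases step3 hG hH hF h₀ with ⟨h5, -⟩ | ⟨-, ⟨b, hb, h5⟩ | h5⟩
    · exact h5 rfl
    · have h6 : b ^ 4 = (b ^ 2) ^ 2 := by rw [← pow_mul]
      rw [h6] at h5
      rcases zpow_two ht2 (hT.2 b hb) with h7 | h7
      · rw [h7, one_pow] at h5; exact htn h5.symm
      · rw [h7, ht2] at h5; exact htn h5.symm
    · exact hcne (h5 c hc)
  · exfalso
    have h4m : ∀ u ∈ ⁅commutator G, (⊤ : Subgroup G)⁆, ∀ g : G, ⁅g, u⁆ = 1 ∨ ⁅g, u⁆ = t := by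
      intro u hu g
      refine zpow_two ht2 (hT.1 ?_)
      rw [commutator_comm]
      exact commutator_mem_commutator (mem_top g) hu
    have hcz : ∀ u ∈ ⁅commutator G, (⊤ : Subgroup G)⁆, ∀ a ∈ commutator G, Commute u a := by
      intro u hu a ha
      refine commutatorElement_eq_one_iff_mul_comm.1 (kill_comm (fun g => inv_cen ?_) ha)
      rcases h4m u hu g with h5 | h5 <;> rw [h5]
      · exact one_mem _
      · exact mem_center_iff.2 htc
    have hab : ∀ a ∈ commutator G, ∀ b ∈ commutator G, a * b = b * a := by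
      intro a ha b hb
      obtain ⟨i, e, he, rfl⟩ := pair_comm_form h₀ ha
      obtain ⟨j, f, hf, rfl⟩ := pair_comm_form h₀ hb
      have c1 : Commute (⁅x₀, y₀⁆ ^ i) (⁅x₀, y₀⁆ ^ j) := (Commute.refl _).zpow_zpow i j
      have c2 : Commute (⁅x₀, y₀⁆ ^ i) f := (hcz f hf _ (zpow_mem (comm_mem _ _) i)).symm
      have c3 : Commute e (⁅x₀, y₀⁆ ^ j * f) := hcz e he _ hb
      exact (c1.mul_right c2).mul_left c3
    have hD : D4 G t := by
      refine ⟨htc, by rw [← pow_two]; exact ht2, htn, ht3, ?_, h4m, hab, ?_, ?_⟩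
      · intro c hc
        rw [← pow_two]
        exact zpow_two ht2 (hT.2 c hc)
      · by_contra hc
        push Not at hc
        apply h4
        rw [eq_bot_iff, commutator_comm, commutator_le]
        intro g _ u hu
        exact mem_bot.2 (hc u hu g)
      · intro x y hxy hw
        apply h3
        have h5 : commutator G ≤ ⁅commutator G, (⊤ : Subgroup G)⁆ ⊔ ⊥ := by
          rw [sup_bot_eq]
          exact (pair_comm hxy).trans (sup_le (zpowers_le.2 hw) le_rfl)
        have h6 := nil_lemma h5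
        rw [le_bot_iff] at h6
        rw [h6, commutator_bot_left]
    exact hD.false hF h₀

end Pool.Agent.Run7.h179.AC
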