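import Pool.Agent.Run7.h179.AC.I

set_option autoImplicit false

/-! The necessity part. -/

namespace Pool.Agent.Run7.h179.AC

open Subgroup
open scoped commutatorElement

universe u

section
variable {G : Type*} [Group G]

theorem prod_form {d : ℕ} {x : Fin d → G} (hx : closure (Set.range x) = ⊤) (g : G) :
    ∃ n : Fin d → ℤ, Abelianization.of g = ∏ i, (Abelianization.of (x i) : Abelianization G) ^ n i := by
  classical
  have h1 : closure (Set.range fun i => (Abelianization.of (x i) : Abelianization G)) = ⊤ := by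
    have h2 : (closure (Set.range x)).map (Abelianization.of (G := G)) = ⊤ := by
      rw [hx]
      exact map_top_of_surjective _ (QuotientGroup.mk'_surjective _)
    rw [MonoidHom.map_closure, ← Set.range_comp] at h2
    exact h2
  have key : ∀ a ∈ closure (Set.range fun i => (Abelianization.of (x i) : Abelianization G)),
      ∃ n : Fin d → ℤ, a = ∏ i, (Abelianization.of (x i) : Abelianization G) ^ n i := by
    intro a ha
    induction ha using closure_induction with
    | mem a ha =>
      obtain ⟨i, rfl⟩ := ha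
      refine ⟨fun j => if j = i then 1 else 0, ?_⟩
      rw [Finset.prod_eq_single i]
      · simp
      · intro j _ hj
        simp [hj]
      · intro h; exact absurd (Finset.mem_univ i) h
    | one => exact ⟨fun _ => 0, by simp⟩
    | mul a b _ _ ha hb =>
      obtain ⟨n, rfl⟩ := ha
      obtain ⟨m, rfl⟩ := hb
      exact ⟨fun i => n i + m i, by rw [← Finset.prod_mul_distrib]; simp only [zpow_add]⟩
    | inv a _ ha =>
      obtain ⟨n, rfl⟩ := ha
      exact ⟨fun i => - n i, by rw [← Finset.prod_inv_distrib]; simp only [zpow_neg]⟩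
  exact key _ (by rw [h1]; exact mem_top _)

theorem exchange [Finite G] {p : ℕ} [hp : Fact p.Prime] (hG : IsPGroup p G) {d : ℕ} {x : Fin d → G}
    (hx : closure (Set.range x) = ⊤) {v : G} (hv : v ∉ frattini G) :
    ∃ i, closure (Set.range (Function.update x i v)) = ⊤ := by
  classical
  have hnil : Group.IsNilpotent G := hG.isNilpotent
  obtain ⟨n, hn⟩ := prod_form hx v
  have hex : ∃ i, ¬ (p : ℤ) ∣ n i := by
    by_contra hc
    push Not at hc
    apply hv
    have h1 : Abelianization.of v ∈ (frattini G).map (Abelianization.of (G := G)) := by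
      rw [hn]
      refine prod_mem fun i _ => ?_
      obtain ⟨k, hk⟩ := hc i
      rw [hk, zpow_mul, zpow_natCast]
      refine zpow_mem ?_ k
      rw [← map_pow]
      exact ⟨_, pow_mem_frattini hG _, rfl⟩
    have h2 : commutator G ≤ frattini G := by
      rw [frattini, Order.radical]
      simp only [le_iInf_iff]
      intro M hM
      by_contra hc
      have hMn : M.Normal :=
        NormalizerCondition.normal_of_coatom M Group.normalizerCondition_of_isNilpotent hM
      have h3 : M ⊔ commutator G = ⊤ := hM.2 _ (lt_of_le_of_ne le_sup_left fun e => hc (by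
        rw [e]; exact le_sup_right))
      exact hM.1 (sup_comm_top h3)
    obtain ⟨f, hf, h3⟩ := h1
    have h4 : f⁻¹ * v ∈ commutator G := by
      rw [← Abelianization.ker_of G, MonoidHom.mem_ker, map_mul, map_inv, h3, inv_mul_cancel]
    have := mul_mem hf (h2 h4)
    rwa [mul_inv_cancel_left] at this
  obtain ⟨i, hi⟩ := hex
  refine ⟨i, ?_⟩
  obtain ⟨H, hH⟩ : ∃ H, H = closure (Set.range (Function.update x i v)) := ⟨_, rfl⟩
  rw [← hH]
  have hvH : v ∈ H := by rw [hH]; exact subset_closure ⟨i, by rw [Function.update_self]⟩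
  have hxH : ∀ j, j ≠ i → x j ∈ H := fun j hj => by
    rw [hH]; exact subset_closure ⟨j, by rw [Function.update_of_ne hj]⟩
  apply sup_comm_top
  have h1 : x i ^ n i ∈ H ⊔ commutator G := by
    have h2 : Abelianization.of (x i ^ n i) ∈ H.map (Abelianization.of (G := G)) := by
      rw [← Finset.mul_prod_erase _ _ (Finset.mem_univ i)] at hn
      have h3 : Abelianization.of (x i ^ n i) = Abelianization.of v *
          (∏ j ∈ Finset.univ.erase i, (Abelianization.of (x j) : Abelianization G) ^ n j)⁻¹ := by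
        rw [hn, mul_inv_cancel_right, map_zpow]
      rw [h3]
      refine mul_mem ⟨v, hvH, rfl⟩ (inv_mem (prod_mem fun j hj => zpow_mem ?_ _))
      exact ⟨x j, hxH j (Finset.ne_of_mem_erase hj), rfl⟩
    obtain ⟨f, hf, h3⟩ := h2
    have h4 : f⁻¹ * x i ^ n i ∈ commutator G := by
      rw [← Abelianization.ker_of G, MonoidHom.mem_ker, map_mul, map_inv, h3, inv_mul_cancel]
    have := mul_mem (mem_sup_left hf : f ∈ H ⊔ commutator G) (mem_sup_right h4)
    rwa [mul_inv_cancel_left] at this
  have h2 : x i ∈ H ⊔ commutator G := pow_coprime_mem hG hi h1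
  rw [eq_top_iff, ← hx, closure_le]
  rintro _ ⟨j, rfl⟩
  by_cases hj : j = i
  · rw [hj]; exact h2
  · exact mem_sup_left (hxH j hj)

end

/-- necessity -/
theorem necessity {G : Type u} [Group G] [Finite G] {p : ℕ} [hp : Fact p.Prime]
    (hG : IsPGroup p G) {d : ℕ} {x : Fin d → G} (hx : closure (Set.range x) = ⊤) (hF : Full G d) :
    (⁅commutator G, (⊤ : Subgroup G)⁆ = ⊥ ∧
      ∀ v ∉ frattini G, ∀ c ∈ commutator G, ∃ g : G, ⁅g, v⁆ = c) ∨
    (d = 2 ∧ IsCyclic (commutator G) ∧
      (p = 2 → ∀ c ∈ ⁅commutator G, (⊤ : Subgroup G)⁆, ∃ b ∈ commutator G, c = b ^ 4)) ∨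
    (p = 2 ∧ d = 2 ∧ ⁅⁅commutator G, (⊤ : Subgroup G)⁆, (⊤ : Subgroup G)⁆ = ⊥ ∧
      ∀ c ∈ commutator G, c ^ 2 = 1) := by
  have hnil : Group.IsNilpotent G := hG.isNilpotent
  by_cases h3 : ⁅commutator G, (⊤ : Subgroup G)⁆ = ⊥
  · left
    refine ⟨h3, fun v hv c hc => ?_⟩
    obtain ⟨i, hi⟩ := exchange hG hx hv
    obtain ⟨g, hg⟩ := one_of_full (hF _ hi) i hc
    rw [Function.update_self] at hg
    exact ⟨g, hg⟩
  · right
    have hd : d < 3 := by
      by_contra hc
      exact h3 (nec_three hG (by omega) hF hx)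
    have hd2 : d = 2 := by
      by_contra hc
      have hd1 : d ≤ 1 := by omega
      apply h3
      have hcyc : ∃ a : G, zpowers a = ⊤ := by
        interval_cases d
        · refine ⟨1, ?_⟩
          rw [← hx, zpowers_one_eq_bot, Set.range_eq_empty, Subgroup.closure_empty]
        · refine ⟨x 0, ?_⟩
          rw [← hx, zpowers_eq_closure, Set.range_unique]
          rfl
      obtain ⟨a, ha⟩ := hcyc
      have hcomm : commutator G = ⊥ := by
        rw [eq_bot_iff, _root_.commutator_def, commutator_le]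
        intro g hg k hk
        rw [← ha] at hg hk
        obtain ⟨i, rfl⟩ := hg
        obtain ⟨j, rfl⟩ := hk
        rw [mem_bot]
        exact commutatorElement_eq_one_iff_mul_comm.2 ((Commute.refl a).zpow_zpow i j)
      rw [hcomm, commutator_bot_left]
    subst hd2
    have hxy : closure {x 0, x 1} = ⊤ := by
      rw [← hx]
      congr 1
      rw [← range_pair]
      congr 1
      funext i
      fin_cases i <;> rfl
    have hexc : p = 2 → (∀ c ∈ commutator G, c ^ 2 ∈ ⁅commutator G, (⊤ : Subgroup G)⁆) →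
        (p = 2 ∧ 2 = 2 ∧ ⁅⁅commutator G, (⊤ : Subgroup G)⁆, (⊤ : Subgroup G)⁆ = ⊥ ∧
      ∀ c ∈ commutator G, c ^ 2 = 1) := by
      intro hp2 hsq
      subst hp2
      obtain ⟨h4, h5⟩ := exc_case _ G rfl hG hF _ _ hxy hsq
      exact ⟨rfl, rfl, h4, h5⟩
    rcases nec_two hG hF hxy with hc | ⟨hp2, hsq⟩
    · by_cases h4 : p = 2 → ∀ c ∈ ⁅commutator G, (⊤ : Subgroup G)⁆, ∃ b ∈ commutator G, c = b ^ 4
      · exact Or.inl ⟨rfl, hc, h4⟩
      · right
        rw [Classical.not_imp] at h4
        obtain ⟨hp2, h4⟩ := h4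
        subst hp2
        exact hexc rfl (nec_cyc hG hc h4)
    · exact Or.inr (hexc hp2 hsq)

end Pool.Agent.Run7.h179.AC
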