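import Pool.Agent.Run7.h179.AC.J

set_option autoImplicit false

/-! Sufficiency, the exceptional 2-groups. -/

namespace Pool.Agent.Run7.h179.AC

open Subgroup
open scoped commutatorElement

section
variable {G : Type*} [Group G]

/-- the central automorphism of a homomorphism -/
def cenAut (θ : G →* G) (hc : ∀ g a : G, a * θ g = θ g * a) (h1 : ∀ g, θ (θ g) = 1) :
    MulAut G where
  toFun g := θ g * g
  invFun g := (θ g)⁻¹ * g
  left_inv := by
    intro g
    show (θ (θ g * g))⁻¹ * (θ g * g) = g
    rw [map_mul, h1, one_mul, inv_mul_cancel_left]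
  right_inv := by
    intro g
    show θ ((θ g)⁻¹ * g) * ((θ g)⁻¹ * g) = g
    rw [map_mul, map_inv, h1, inv_one, one_mul, mul_inv_cancel_left]
  map_mul' := by
    intro a b
    show θ (a * b) * (a * b) = θ a * a * (θ b * b)
    rw [map_mul, mul_assoc, mul_assoc, ← mul_assoc a, hc b a, mul_assoc]

theorem cenAut_apply (θ : G →* G) (hc : ∀ g a : G, a * θ g = θ g * a) (h1 : ∀ g, θ (θ g) = 1)
    (g : G) : cenAut θ hc h1 g = θ g * g := rfl

theorem cenAut_mem {θ : G →* G} {hc : ∀ g a : G, a * θ g = θ g * a} {h1 : ∀ g, θ (θ g) = 1}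
    (h : ∀ g, ∃ k : G, ⁅k, g⁆ = θ g) : cenAut θ hc h1 ∈ AutC G := by
  intro g
  rw [cenAut_apply]
  exact conj_iff.2 (h g)

theorem conj_mem (g : G) : MulAut.conj g ∈ AutC G := by
  intro x
  exact isConj_iff.2 ⟨g, rfl⟩

theorem trivial_full {ι : ℕ} (h : commutator G = ⊥) (x : Fin ι → G) : FullAt x := by
  intro c hc
  refine ⟨1, one_mem _, fun i => ?_⟩
  have := hc i
  rw [h, mem_bot] at this
  rw [this, one_mul, MulAut.one_apply]

/-- homomorphisms from a group with two generators -/
theorem exists_hom {A : Type*} [CommGroup A] {x y : G} (h : closure {x, y} = ⊤) {f f' : A}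
    (hrel : ∀ m n : ℤ, x ^ m * y ^ n ∈ commutator G → f ^ m * f' ^ n = 1) :
    ∃ θ : G →* A, θ x = f ∧ θ y = f' := by
  have hs : Function.Surjective (FreeGroup.lift ![x, y]) := by
    intro g
    exact lift_surj (by rw [range_pair]; exact h) g
  have key : (FreeGroup.lift ![x, y]).ker ≤ (FreeGroup.lift ![f, f']).ker := by
    intro r hr
    rw [MonoidHom.mem_ker] at hr ⊢
    let e0 : FreeGroup (Fin 2) →* Multiplicative ℤ := FreeGroup.lift ![Multiplicative.ofAdd 1, 1]
    let e1 : FreeGroup (Fin 2) →* Multiplicative ℤ := FreeGroup.lift ![1, Multiplicative.ofAdd 1]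
    have h1 : Abelianization.of.comp (FreeGroup.lift ![x, y]) =
        ((zpowersHom (Abelianization G) (Abelianization.of x)).comp e0) *
          ((zpowersHom (Abelianization G) (Abelianization.of y)).comp e1) := by
      ext i
      fin_cases i
      · simp [e0, e1]
      · simp [e0, e1]
    have h2 : FreeGroup.lift ![f, f'] =
        ((zpowersHom A f).comp e0) * ((zpowersHom A f').comp e1) := by
      ext i
      fin_cases i
      · simp [e0, e1]
      · simp [e0, e1]
    have h3 := DFunLike.congr_fun h1 r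
    rw [MonoidHom.comp_apply, hr, map_one] at h3
    rw [h2]
    refine hrel (Multiplicative.toAdd (e0 r)) (Multiplicative.toAdd (e1 r)) ?_
    rw [← Abelianization.ker_of G, MonoidHom.mem_ker, map_mul, map_zpow, map_zpow]
    exact h3.symm
  refine ⟨MonoidHom.liftOfSurjective _ hs ⟨FreeGroup.lift ![f, f'], key⟩, ?_, ?_⟩
  · have h1 := MonoidHom.liftOfRightInverse_comp_apply (FreeGroup.lift ![x, y])
      (Function.surjInv hs) (Function.rightInverse_surjInv hs) ⟨FreeGroup.lift ![f, f'], key⟩
      (FreeGroup.of 0)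
    rw [FreeGroup.lift_apply_of] at h1
    exact h1.trans FreeGroup.lift_apply_of
  · have h1 := MonoidHom.liftOfRightInverse_comp_apply (FreeGroup.lift ![x, y])
      (Function.surjInv hs) (Function.rightInverse_surjInv hs) ⟨FreeGroup.lift ![f, f'], key⟩
      (FreeGroup.of 1)
    rw [FreeGroup.lift_apply_of] at h1
    exact h1.trans FreeGroup.lift_apply_of

end

end Pool.Agent.Run7.h179.AC
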