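import Pool.Agent.Run7.h179.AC.K

set_option autoImplicit false

/-! Sufficiency, the exceptional 2-groups. -/

namespace Pool.Agent.Run7.h179.AC

open Subgroup
open scoped commutatorElement IsMulCommutative

section
variable {G : Type*} [Group G]

/-- the central commutators with `y` -/
def cenT (y : G) : Subgroup G where
  carrier := {f | (∀ g : G, g * f = f * g) ∧ ∃ k : G, ⁅k, y⁆ = f}
  one_mem' := ⟨fun g => by rw [mul_one, one_mul], 1, commutatorElement_one_left y⟩
  mul_mem' := by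
    rintro a b ⟨ha, k, hk⟩ ⟨hb, l, hl⟩
    refine ⟨fun g => ((show Commute g a from ha g).mul_right (hb g)), k * l, ?_⟩
    rw [comm_mul_left, hl, hk, hb k, mul_inv_cancel_right, ha b]
  inv_mem' := by
    rintro a ⟨ha, k, hk⟩
    refine ⟨fun g => ((show Commute g a from ha g).inv_right), k⁻¹, ?_⟩
    have : ⁅k⁻¹, y⁆ = k⁻¹ * ⁅k, y⁆⁻¹ * k := by simp only [commutatorElement_def]; group
    rw [this, hk, ((show Commute k⁻¹ a from ha _).inv_right).eq, inv_mul_cancel_right]

theorem cenT_normal (y : G) : (cenT y).Normal := by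
  constructor
  rintro a ⟨ha, h⟩ g
  rw [ha g, mul_inv_cancel_right]
  exact ⟨ha, h⟩

theorem attained (h4 : ⁅⁅commutator G, (⊤ : Subgroup G)⁆, (⊤ : Subgroup G)⁆ = ⊥)
    (hsq : ∀ c ∈ commutator G, c ^ 2 = 1) {x y : G} (h : closure {x, y} = ⊤) {f : G}
    (hf : f ∈ ⁅commutator G, (⊤ : Subgroup G)⁆) : ∃ k : G, ⁅k, y⁆ = f := by
  have hcen : ∀ e ∈ ⁅commutator G, (⊤ : Subgroup G)⁆, ∀ g : G, g * e = e * g := by
    intro e he g
    have : ⁅e, g⁆ ∈ ⁅⁅commutator G, (⊤ : Subgroup G)⁆, (⊤ : Subgroup G)⁆ :=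
      commutator_mem_commutator he (mem_top g)
    rw [h4, mem_bot, commutatorElement_eq_one_iff_mul_comm] at this
    exact this.symm
  have hN := cenT_normal y
  have hu : ⁅x, ⁅x, y⁆⁆ ∈ cenT y := by
    refine ⟨hcen _ (mem3 (comm_mem x y)), x * x, ?_⟩
    have := hsq _ (comm_mem x y)
    rw [pow_two] at this
    rw [comm_mul_left, conj_eq, mul_assoc, this, mul_one]
  have hq : ⁅y, ⁅x, y⁆⁆ ∈ cenT y := by
    have h1 : ⁅y, ⁅x, y⁆⁆⁻¹ ∈ cenT y := by
      refine ⟨fun g => (show Commute g _ from hcen _ (mem3 (comm_mem x y)) g).inv_right, ⁅x, y⁆, ?_⟩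
      rw [commutatorElement_inv]
    have := inv_mem h1
    rwa [inv_inv] at this
  have hle : ⁅commutator G, (⊤ : Subgroup G)⁆ ≤ cenT y := by
    rw [commutator_le]
    intro c hc g _
    obtain ⟨i, e, he, rfl⟩ := pair_comm_form h hc
    have h1 := cen_of_pair (quot_pair (N := cenT y) h)
      (a := QuotientGroup.mk' (cenT y) ⁅x, y⁆) (by
        rw [← commutatorElement_eq_one_iff_mul_comm, ← map_commutatorElement]
        exact (QuotientGroup.eq_one_iff _).2 hu) (by
        rw [← commutatorElement_eq_one_iff_mul_comm, ← map_commutatorElement]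
        exact (QuotientGroup.eq_one_iff _).2 hq) (QuotientGroup.mk' (cenT y) g)
    have h2 : Commute (QuotientGroup.mk' (cenT y) g) (QuotientGroup.mk' (cenT y) e) := by
      show _ * _ = _ * _
      rw [← map_mul, ← map_mul, hcen e he g]
    have h3 := ((show Commute (QuotientGroup.mk' (cenT y) g)
      (QuotientGroup.mk' (cenT y) ⁅x, y⁆) from h1).zpow_right i).mul_right h2
    rw [← map_zpow, ← map_mul] at h3
    have h4 := commutatorElement_eq_one_iff_mul_comm.2 h3.symm
    rw [← map_commutatorElement] at h4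
    exact (QuotientGroup.eq_one_iff _).1 h4
  exact (hle hf).2

theorem comm_bot_of_cyclic {a : G} (ha : zpowers a = ⊤) : commutator G = ⊥ := by
  rw [eq_bot_iff, _root_.commutator_def, commutator_le]
  intro g hg k hk
  rw [← ha] at hg hk
  obtain ⟨i, rfl⟩ := hg
  obtain ⟨j, rfl⟩ := hk
  rw [mem_bot]
  exact commutatorElement_eq_one_iff_mul_comm.2 ((Commute.refl a).zpow_zpow i j)

/-- replacing a member of a generating pair -/
theorem repl [Finite G] {p : ℕ} [hp : Fact p.Prime] (hG : IsPGroup p G) {x y : G}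
    (h : closure {x, y} = ⊤) {i j : ℤ} (hi : ¬ (p : ℤ) ∣ i) {e : G} (he : e ∈ commutator G) :
    closure {y, x ^ i * (y ^ j * e)} = ⊤ := by
  have hnil : Group.IsNilpotent G := hG.isNilpotent
  apply sup_comm_top
  have q1 : y ∈ closure {y, x ^ i * (y ^ j * e)} ⊔ commutator G :=
    mem_sup_left (subset_closure (Or.inl rfl))
  have q2 : x ^ i * (y ^ j * e) ∈ closure {y, x ^ i * (y ^ j * e)} ⊔ commutator G :=
    mem_sup_left (subset_closure (Or.inr rfl))
  have q3 : e ∈ closure {y, x ^ i * (y ^ j * e)} ⊔ commutator G := mem_sup_right he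
  have q4 : x ^ i ∈ closure {y, x ^ i * (y ^ j * e)} ⊔ commutator G := by
    have := mul_mem q2 (inv_mem (mul_mem (zpow_mem q1 j) q3))
    rwa [mul_inv_cancel_right] at this
  have q5 := pow_coprime_mem hG hi q4
  rw [eq_top_iff, ← h, closure_le]
  rintro g (rfl | rfl)
  · exact q5
  · exact q1

theorem even_of [Finite G] {p : ℕ} [hp : Fact p.Prime] (hG : IsPGroup p G) {x y : G}
    (h : closure {x, y} = ⊤) (hne : commutator G ≠ ⊥) {m n : ℤ}
    (hmn : x ^ m * y ^ n ∈ commutator G) : (p : ℤ) ∣ m := by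
  have hnil : Group.IsNilpotent G := hG.isNilpotent
  by_contra hm
  apply hne
  refine comm_bot_of_cyclic (a := y) (sup_comm_top ?_)
  have q1 : y ∈ zpowers y ⊔ commutator G := mem_sup_left (mem_zpowers y)
  have q2 : x ^ m ∈ zpowers y ⊔ commutator G := by
    have := mul_mem (mem_sup_right hmn : _ ∈ zpowers y ⊔ commutator G) (inv_mem (zpow_mem q1 n))
    rwa [mul_inv_cancel_right] at this
  have q3 := pow_coprime_mem hG hm q2
  rw [eq_top_iff, ← h, closure_le]
  rintro g (rfl | rfl)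
  · exact q3
  · exact q1

theorem swap_form {x y : G} {m n : ℤ} (hmn : x ^ m * y ^ n ∈ commutator G) :
    y ^ n * x ^ m ∈ commutator G := by
  have : y ^ n * x ^ m = x ^ (-m) * (x ^ m * y ^ n) * (x ^ (-m))⁻¹ := by group
  rw [this]
  exact Normal.conj_mem inferInstance _ hmn _

theorem suff_iii [Finite G] (hG : IsPGroup 2 G)
    (h4 : ⁅⁅commutator G, (⊤ : Subgroup G)⁆, (⊤ : Subgroup G)⁆ = ⊥)
    (hsq : ∀ c ∈ commutator G, c ^ 2 = 1) {x y : G} (h : closure {x, y} = ⊤) :
    FullAt ![x, y] := by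
  have hp2 : Fact (Nat.Prime 2) := ⟨Nat.prime_two⟩
  by_cases hne : commutator G = ⊥
  · exact trivial_full hne _
  have hcen : ∀ e ∈ ⁅commutator G, (⊤ : Subgroup G)⁆, ∀ g : G, g * e = e * g := by
    intro e he g
    have : ⁅e, g⁆ ∈ ⁅⁅commutator G, (⊤ : Subgroup G)⁆, (⊤ : Subgroup G)⁆ :=
      commutator_mem_commutator he (mem_top g)
    rw [h4, mem_bot, commutatorElement_eq_one_iff_mul_comm] at this
    exact this.symm
  -- the automorphisms with values in `γ₃`
  have main : ∀ f ∈ ⁅commutator G, (⊤ : Subgroup G)⁆, ∀ f' ∈ ⁅commutator G, (⊤ : Subgroup G)⁆,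
      ∃ β ∈ AutC G, β x = f * x ∧ β y = f' * y := by
    intro f hf f' hf'
    have hf1 : f ∈ center G := mem_center_iff.2 (hcen f hf)
    have hf1' : f' ∈ center G := mem_center_iff.2 (hcen f' hf')
    have hpow : ∀ e ∈ ⁅commutator G, (⊤ : Subgroup G)⁆, ∀ m : ℤ, (2 : ℤ) ∣ m → e ^ m = 1 := by
      rintro e he m ⟨k, rfl⟩
      rw [zpow_mul, zpow_ofNat, hsq e (commutator_le_left _ _ he), one_zpow]
    obtain ⟨θ, hθx, hθy⟩ := exists_hom (A := center G) h (f := ⟨f, hf1⟩) (f' := ⟨f', hf1'⟩) (by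
      intro m n hmn
      have hm : (2 : ℤ) ∣ m := even_of (p := 2) hG h hne hmn
      have hn : (2 : ℤ) ∣ n := even_of (p := 2) hG (pair_swap h) hne (swap_form hmn)
      apply Subtype.ext
      show f ^ m * f' ^ n = 1
      rw [hpow f hf m hm, hpow f' hf' n hn, one_mul])
    have hker : ∀ c ∈ commutator G, θ c = 1 := by
      intro c hc
      have : commutator G ≤ θ.ker := Abelianization.commutator_subset_ker θ
      exact MonoidHom.mem_ker.1 (this hc)
    have hval : ∀ i j : ℤ, ∀ e ∈ commutator G, ((θ (x ^ i * (y ^ j * e)) : center G) : G) =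
        f ^ i * f' ^ j := by
      intro i j e he
      rw [map_mul, map_mul, map_zpow, map_zpow, hθx, hθy, hker e he, mul_one]
      rfl
    have hval3 : ∀ g : G, ((θ g : center G) : G) ∈ ⁅commutator G, (⊤ : Subgroup G)⁆ := by
      intro g
      obtain ⟨i, j, e, he, rfl⟩ := pair_form h g
      rw [hval i j e he]
      exact mul_mem (zpow_mem hf i) (zpow_mem hf' j)
    refine ⟨cenAut ((center G).subtype.comp θ) (fun g a => mem_center_iff.1 (θ g).2 a) ?_,
      cenAut_mem ?_, ?_, ?_⟩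
    · intro g
      show ((θ ((θ g : center G) : G) : center G) : G) = 1
      rw [hker _ (commutator_le_left _ _ (hval3 g))]
      rfl
    · intro g
      show ∃ k : G, ⁅k, g⁆ = ((θ g : center G) : G)
      have hg3 := hval3 g
      obtain ⟨i, j, e, he, rfl⟩ := pair_form h g
      by_cases hi : (2 : ℤ) ∣ i
      · by_cases hj : (2 : ℤ) ∣ j
        · refine ⟨1, ?_⟩
          rw [hval i j e he, hpow f hf i hi, hpow f' hf' j hj, one_mul, commutatorElement_one_left]
        · -- `y ^ j * x ^ i * e'`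
          have h5 : x ^ i * (y ^ j * e) = y ^ j * (x ^ i * (⁅(x ^ i)⁻¹, (y ^ j)⁻¹⁆ * e)) := by
            simp only [commutatorElement_def]; group
          rw [h5] at hg3 ⊢
          exact attained h4 hsq (repl (p := 2) hG (pair_swap h) hj
            (mul_mem (comm_mem _ _) he)) hg3
      · exact attained h4 hsq (repl (p := 2) hG h hi he) hg3
    · show ((θ x : center G) : G) * x = f * x
      rw [hθx]
    · show ((θ y : center G) : G) * y = f' * y
      rw [hθy]
  -- reduction of general cosets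
  have hw2 : ⁅x, y⁆ * ⁅x, y⁆ = 1 := by
    have := hsq _ (comm_mem x y)
    rwa [pow_two] at this
  have hwi : ⁅y, x⁆ = ⁅x, y⁆ := by
    rw [← commutatorElement_inv x y]
    exact inv_eq_of_mul_eq_one_right hw2
  have split : ∀ c ∈ commutator G, (c ∈ ⁅commutator G, (⊤ : Subgroup G)⁆) ∨
      (c * ⁅x, y⁆⁻¹ ∈ ⁅commutator G, (⊤ : Subgroup G)⁆) := by
    intro c hc
    obtain ⟨i, e, he, rfl⟩ := pair_comm_form h hc
    rcases Int.even_or_odd' i with ⟨k, rfl | rfl⟩
    · left
      rw [zpow_mul, zpow_ofNat, pow_two, hw2, one_zpow, one_mul]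
      exact he
    · right
      rw [zpow_add, zpow_mul, zpow_ofNat, pow_two, hw2, one_zpow, one_mul, zpow_one,
        hcen e he, mul_inv_cancel_right]
      exact he
  intro c hc
  have hfin : ∀ k f f' : G, f ∈ ⁅commutator G, (⊤ : Subgroup G)⁆ →
      f' ∈ ⁅commutator G, (⊤ : Subgroup G)⁆ → c 0 = f * ⁅k, x⁆ → c 1 = f' * ⁅k, y⁆ →
      ∃ α ∈ AutC G, ∀ i, α (![x, y] i) = c i * ![x, y] i := by
    intro k f f' hf hf' h0 h1
    obtain ⟨β, hβ, h2, h3⟩ := main f hf f' hf'
    refine ⟨MulAut.conj k * β, mul_mem (conj_mem k) hβ, ?_⟩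
    intro i
    fin_cases i
    · show MulAut.conj k (β x) = c 0 * x
      rw [h2, h0, map_mul, MulAut.conj_apply, MulAut.conj_apply, hcen f hf k, mul_inv_cancel_right,
        conj_eq k x, mul_assoc]
    · show MulAut.conj k (β y) = c 1 * y
      rw [h3, h1, map_mul, MulAut.conj_apply, MulAut.conj_apply, hcen f' hf' k,
        mul_inv_cancel_right, conj_eq k y, mul_assoc]
  have hg3 : ∀ g : G, ⁅g, ⁅x, y⁆⁆ ∈ ⁅commutator G, (⊤ : Subgroup G)⁆ := fun g => mem3 (comm_mem x y)
  rcases split (c 0) (hc 0) with h0 | h0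
  · rcases split (c 1) (hc 1) with h1 | h1
    · exact hfin 1 (c 0) (c 1) h0 h1 (by rw [commutatorElement_one_left, mul_one])
        (by rw [commutatorElement_one_left, mul_one])
    · exact hfin x (c 0) (c 1 * ⁅x, y⁆⁻¹) h0 h1 (by rw [commutatorElement_self, mul_one])
        (by rw [inv_mul_cancel_right])
  · rcases split (c 1) (hc 1) with h1 | h1
    · exact hfin y (c 0 * ⁅x, y⁆⁻¹) (c 1) h0 h1 (by rw [hwi, inv_mul_cancel_right])
        (by rw [commutatorElement_self, mul_one])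
    · refine hfin (x * y) (c 0 * ⁅x, y⁆⁻¹ * ⁅x, ⁅x, y⁆⁆⁻¹) (c 1 * ⁅x, y⁆⁻¹)
        (mul_mem h0 (inv_mem (hg3 x))) h1 ?_ ?_
      · rw [comm_mul_left, commutatorElement_self, mul_one, hwi, conj_eq, mul_assoc,
          inv_mul_cancel_left, inv_mul_cancel_right]
      · rw [comm_mul_left, commutatorElement_self, mul_one, mul_inv_cancel, one_mul,
          inv_mul_cancel_right]

end

end Pool.Agent.Run7.h179.AC
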