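import Pool.Agent.Run7.h179.AC.L

set_option autoImplicit false

/-! Sufficiency, class two. -/

namespace Pool.Agent.Run7.h179.AC

open Subgroup
open scoped commutatorElement IsMulCommutative

theorem exists_cyc {A : Type*} [CommGroup A] (n : ℕ) {z : A} (hz : z ^ n = 1) :
    ∃ L : Multiplicative (ZMod n) →* A, L (Multiplicative.ofAdd 1) = z := by
  let f : {f : ℤ →+ Additive A // f n = 0} := ⟨zmultiplesHom (Additive A) (Additive.ofMul z), by
    rw [zmultiplesHom_apply, natCast_zsmul, ← ofMul_pow, hz, ofMul_one]⟩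
  refine ⟨AddMonoidHom.toMultiplicativeLeft (ZMod.lift n f), ?_⟩
  show (ZMod.lift n f (1 : ZMod n)).toMul = z
  have h1 : ZMod.lift n f ((1 : ℤ) : ZMod n) = f.1 1 := ZMod.lift_coe n f 1
  rw [Int.cast_one] at h1
  rw [h1]
  show ((zmultiplesHom (Additive A) (Additive.ofMul z)) 1).toMul = z
  rw [zmultiplesHom_apply, one_zsmul, toMul_ofMul]

theorem comm_le_frattini {G : Type*} [Group G] [Finite G] [Group.IsNilpotent G] :
    commutator G ≤ frattini G := by
  rw [frattini, Order.radical]
  simp only [le_iInf_iff]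
  intro M hM
  by_contra hc
  have hMn : M.Normal :=
    NormalizerCondition.normal_of_coatom M Group.normalizerCondition_of_isNilpotent hM
  have h3 : M ⊔ commutator G = ⊤ := hM.2 _ (lt_of_le_of_ne le_sup_left fun e => hc (by
    rw [e]; exact le_sup_right))
  exact hM.1 (sup_comm_top h3)

theorem of_eq_one {G : Type*} [Group G] {g : G} :
    (Abelianization.of g : Abelianization G) = 1 ↔ g ∈ commutator G := by
  rw [← Abelianization.ker_of G, MonoidHom.mem_ker]

/-- lifting membership from the abelianization -/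
theorem mem_of_map {G : Type*} [Group G] {K : Subgroup G} (hK : commutator G ≤ K) {g : G}
    (h : (Abelianization.of g : Abelianization G) ∈ K.map (Abelianization.of (G := G))) : g ∈ K := by
  obtain ⟨f, hf, h3⟩ := h
  have h4 : f⁻¹ * g ∈ commutator G := by
    rw [← of_eq_one, map_mul, map_inv, h3, inv_mul_cancel]
  have := mul_mem hf (hK h4)
  rwa [mul_inv_cancel_left] at this

theorem suff_i {G : Type*} [Group G] [Finite G] {p : ℕ} [hp : Fact p.Prime] (hG : IsPGroup p G)
    (h3 : ⁅commutator G, (⊤ : Subgroup G)⁆ = ⊥)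
    (hv : ∀ v ∉ frattini G, ∀ c ∈ commutator G, ∃ g : G, ⁅g, v⁆ = c) :
    ∃ (ι : Type) (_ : Fintype ι) (x : ι → G), closure (Set.range x) = ⊤ ∧
      ∀ c : ι → G, (∀ i, c i ∈ commutator G) → ∃ α ∈ AutC G, ∀ i, α (x i) = c i * x i := by
  classical
  have hnil : Group.IsNilpotent G := hG.isNilpotent
  have hcz : ∀ c ∈ commutator G, ∀ g : G, g * c = c * g := by
    intro c hc g
    have : ⁅c, g⁆ ∈ ⁅commutator G, (⊤ : Subgroup G)⁆ := commutator_mem_commutator hc (mem_top g)
    rw [h3, mem_bot, commutatorElement_eq_one_iff_mul_comm] at this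
    exact this.symm
  have hcc : ∀ k g : G, ⁅k, g⁆ ∈ center G := fun k g => mem_center_iff.2 (hcz _ (comm_mem k g))
  have hzp : ∀ (k g : G) (m : ℤ), ⁅k, g ^ m⁆ = ⁅k, g⁆ ^ m := by
    intro k g m
    have := congrArg Subtype.val (map_zpow (chi k (hcc k)) g m)
    exact this
  have hmc : ∀ (k g c : G), c ∈ commutator G → ⁅k, g * c⁆ = ⁅k, g⁆ := by
    intro k g c hc
    rw [comm_mul_right, commutatorElement_eq_one_iff_mul_comm.2 (hcz c hc k), mul_one,
      mul_inv_cancel, mul_one]
  obtain ⟨ι, hι, n, hn1, ⟨φ⟩⟩ := CommGroup.equiv_prod_multiplicative_zmod_of_finite (Abelianization G)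
  obtain ⟨b, hb⟩ : ∃ b : ι → Abelianization G, b = fun i =>
    φ.symm (Pi.mulSingle i (Multiplicative.ofAdd 1)) := ⟨_, rfl⟩
  choose x hx using fun i => QuotientGroup.mk'_surjective (commutator G) (b i)
  replace hx : ∀ i, Abelianization.of (x i) = b i := hx
  let π : ∀ i, G →* Multiplicative (ZMod (n i)) := fun i =>
    (Pi.evalMonoidHom (fun i => Multiplicative (ZMod (n i))) i).comp
      (φ.toMonoidHom.comp Abelianization.of)
  have hπ : ∀ i j, π i (x j) = (Pi.mulSingle j (Multiplicative.ofAdd (1 : ZMod (n j))) :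
      ∀ i, Multiplicative (ZMod (n i))) i := by
    intro i j
    show φ (Abelianization.of (x j)) i = _
    rw [hx j, hb, MulEquiv.apply_symm_apply]
  have hπ1 : ∀ i, π i (x i) = Multiplicative.ofAdd 1 := by
    intro i; rw [hπ, Pi.mulSingle_eq_same]
  have hπ2 : ∀ i j, i ≠ j → π i (x j) = 1 := by
    intro i j hij; rw [hπ, Pi.mulSingle_eq_of_ne hij]
  have hform : ∀ g : G, ∃ m : ι → ℤ, Abelianization.of g = ∏ i, b i ^ m i := by
    intro g
    refine ⟨fun i => ((Multiplicative.toAdd (φ (Abelianization.of g) i)).cast : ℤ), ?_⟩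
    apply φ.injective
    rw [map_prod]
    conv_lhs => rw [← Finset.univ_prod_mulSingle (φ (Abelianization.of g))]
    refine Finset.prod_congr rfl fun i _ => ?_
    rw [map_zpow, hb]
    simp only [MulEquiv.apply_symm_apply]
    rw [← Pi.mulSingle_zpow, ← ofAdd_zsmul]
    congr 1
    rw [zsmul_one, ZMod.intCast_zmod_cast, ofAdd_toAdd]
  have hgen : closure (Set.range x) = ⊤ := by
    apply sup_comm_top
    rw [eq_top_iff]
    intro g _
    apply mem_of_map le_sup_right
    obtain ⟨m, hm⟩ := hform g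
    rw [hm]
    refine prod_mem fun i _ => zpow_mem ?_ _
    exact ⟨x i, mem_sup_left (subset_closure ⟨i, rfl⟩), hx i⟩
  have hindep : ∀ i, closure (x '' {j | j ≠ i}) ≠ ⊤ := by
    intro i hi
    have h1 : (⊤ : Subgroup G) ≤ (π i).ker := by
      rw [← hi, closure_le]
      rintro _ ⟨j, hj, rfl⟩
      exact MonoidHom.mem_ker.2 (hπ2 i j (Ne.symm hj))
    have h2 : π i (x i) = 1 := MonoidHom.mem_ker.1 (h1 (mem_top _))
    rw [hπ1] at h2
    have h3 : (1 : ZMod (n i)) = 0 := Multiplicative.ofAdd.injective h2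
    have : Fact (1 < n i) := ⟨hn1 i⟩
    exact one_ne_zero h3
  have hout : ∀ (h : G) (m : ι → ℤ) (i : ι), Abelianization.of h = ∏ j, b j ^ m j →
      ¬ (p : ℤ) ∣ m i → h ∉ frattini G := by
    intro h m i hm hi hf
    apply hindep i
    apply frattini_nongenerating
    obtain ⟨K, hK⟩ : ∃ K, K = closure (x '' {j | j ≠ i}) ⊔ frattini G := ⟨_, rfl⟩
    rw [← hK]
    have hKc : commutator G ≤ K := by rw [hK]; exact comm_le_frattini.trans le_sup_right
    have hxK : ∀ j, j ≠ i → x j ∈ K := fun j hj => by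
      rw [hK]; exact mem_sup_left (subset_closure ⟨j, hj, rfl⟩)
    have h1 : x i ^ m i ∈ K := by
      apply mem_of_map hKc
      rw [← Finset.mul_prod_erase _ _ (Finset.mem_univ i)] at hm
      have h2 : Abelianization.of (x i ^ m i) = Abelianization.of h *
          (∏ j ∈ Finset.univ.erase i, b j ^ m j)⁻¹ := by
        rw [hm, mul_inv_cancel_right, map_zpow, hx]
      rw [h2]
      refine mul_mem ⟨h, by rw [hK]; exact mem_sup_right hf, rfl⟩
        (inv_mem (prod_mem fun j hj => zpow_mem ?_ _))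
      exact ⟨x j, hxK j (Finset.ne_of_mem_erase hj), hx j⟩
    have h2 : x i ∈ K := pow_coprime_mem hG hi h1
    rw [eq_top_iff, ← hgen, closure_le]
    rintro _ ⟨j, rfl⟩
    by_cases hj : j = i
    · rw [hj]; exact h2
    · exact hxK j hj
  have hxf : ∀ i, x i ∉ frattini G := by
    intro i
    refine hout (x i) (fun j => if j = i then 1 else 0) i ?_ ?_
    · rw [Finset.prod_eq_single i]
      · rw [if_pos rfl, zpow_one, hx]
      · intro j _ hj
        rw [if_neg hj, zpow_zero]
      · intro h; exact absurd (Finset.mem_univ i) h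
    · rw [if_pos rfl]
      intro h
      have := Int.isUnit_iff.1 (isUnit_of_dvd_one h)
      have hp1 := hp.out.one_lt
      omega
  have hbn : ∀ i, b i ^ n i = 1 := by
    intro i
    apply φ.injective
    rw [map_pow, hb, map_one]
    simp only [MulEquiv.apply_symm_apply]
    rw [← Pi.mulSingle_pow, ← ofAdd_nsmul, nsmul_one, ZMod.natCast_self, ofAdd_zero,
      Pi.mulSingle_one]
  have hpow : ∀ i, ∀ c ∈ commutator G, c ^ n i = 1 := by
    intro i c hc
    obtain ⟨g, rfl⟩ := hv (x i) (hxf i) c hc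
    have h1 : x i ^ n i ∈ commutator G := by
      rw [← of_eq_one, map_pow, hx, hbn]
    rw [← zpow_natCast, ← hzp, zpow_natCast]
    exact commutatorElement_eq_one_iff_mul_comm.2 (hcz _ h1 g)
  refine ⟨ι, hι, x, hgen, fun c hc => ?_⟩
  choose L hL using fun i => exists_cyc (A := center G) (n i) (z := ⟨c i, mem_center_iff.2 (hcz _ (hc i))⟩)
    (Subtype.ext (hpow i (c i) (hc i)))
  obtain ⟨θ, hθ⟩ : ∃ θ : G →* center G, θ = ∏ i, (L i).comp (π i) := ⟨_, rfl⟩
  have hθx : ∀ j, ((θ (x j) : center G) : G) = c j := by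
    intro j
    rw [hθ, MonoidHom.finset_prod_apply, Finset.prod_eq_single j]
    · rw [MonoidHom.comp_apply, hπ1, hL]
    · intro i _ hij
      rw [MonoidHom.comp_apply, hπ2 i j hij, map_one]
    · intro h; exact absurd (Finset.mem_univ j) h
  have hker : ∀ c ∈ commutator G, θ c = 1 := by
    intro c hc
    exact MonoidHom.mem_ker.1 (Abelianization.commutator_subset_ker θ hc)
  have hval : ∀ g : G, ((θ g : center G) : G) ∈ commutator G := by
    have h1 : closure (Set.range x) ≤ (commutator G).comap ((center G).subtype.comp θ) := by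
      rw [closure_le]
      rintro _ ⟨i, rfl⟩
      show ((θ (x i) : center G) : G) ∈ commutator G
      rw [hθx]
      exact hc i
    intro g
    exact h1 (by rw [hgen]; exact mem_top g)
  refine ⟨cenAut ((center G).subtype.comp θ) (fun g a => mem_center_iff.1 (θ g).2 a) ?_,
      cenAut_mem ?_, ?_⟩
  · intro g
    show ((θ ((θ g : center G) : G) : center G) : G) = 1
    rw [hker _ (hval g)]
    rfl
  · intro g
    show ∃ k : G, ⁅k, g⁆ = ((θ g : center G) : G)
    by_cases hne : Nonempty ι
    · obtain ⟨m, hm⟩ := hform g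
      obtain ⟨m', hm', hgcd⟩ := Finset.extract_gcd m (Finset.univ_nonempty (α := ι))
      have hex : ∃ i, ¬ (p : ℤ) ∣ m' i := by
        by_contra hcon
        push Not at hcon
        have h1 : (p : ℤ) ∣ Finset.univ.gcd m' := Finset.dvd_gcd fun i _ => hcon i
        rw [hgcd] at h1
        have := Int.isUnit_iff.1 (isUnit_of_dvd_one h1)
        have hp1 := hp.out.one_lt
        omega
      obtain ⟨i, hi⟩ := hex
      obtain ⟨h, hh⟩ : ∃ h : G, Abelianization.of h = ∏ j, b j ^ m' j :=
        QuotientGroup.mk'_surjective (commutator G) _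
      obtain ⟨k, hk⟩ := hv h (hout h m' i hh hi) _ (hval h)
      obtain ⟨N, hN⟩ : ∃ N : ℤ, N = Finset.univ.gcd m := ⟨_, rfl⟩
      have h1 : (h ^ N)⁻¹ * g ∈ commutator G := by
        rw [← of_eq_one, map_mul, map_inv, map_zpow, hh, hm, ← Finset.prod_zpow,
          inv_mul_eq_one]
        refine Finset.prod_congr rfl fun j hj => ?_
        rw [hm' j hj, ← hN, ← zpow_mul, mul_comm]
      have h2 : g = h ^ N * ((h ^ N)⁻¹ * g) := by rw [mul_inv_cancel_left]
      refine ⟨k, ?_⟩
      rw [h2, hmc _ _ _ h1, hzp, hk, map_mul, hker _ h1, mul_one, map_zpow]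
      rfl
    · refine ⟨1, ?_⟩
      rw [commutatorElement_one_left]
      have h1 : g ∈ commutator G := by
        rw [← of_eq_one]
        obtain ⟨m, hm⟩ := hform g
        rw [hm]
        have : (Finset.univ : Finset ι) = ∅ := by
          rw [Finset.univ_eq_empty_iff]
          exact not_nonempty_iff.1 hne
        rw [this, Finset.prod_empty]
      rw [hker g h1]
      rfl
  · intro i
    show ((θ (x i) : center G) : G) * x i = c i * x i
    rw [hθx]

end Pool.Agent.Run7.h179.AC
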