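import Pool.Agent.Run7.h179.AC.M

set_option autoImplicit false

/-! Sufficiency, cyclic derived subgroup. -/

namespace Pool.Agent.Run7.h179.AC

open Subgroup
open scoped commutatorElement

/-- geometric sums -/
def gs (a : ℤ) (n : ℕ) : ℤ := ∑ i ∈ Finset.range n, a ^ i

theorem not_dvd {p : ℕ} [hp : Fact p.Prime] {a : ℤ} (ha : (p : ℤ) ∣ a - 1) : ¬ (p : ℤ) ∣ a := by
  intro h
  have h1 : (p : ℤ) ∣ 1 := by
    have := dvd_sub h ha
    rwa [sub_sub_cancel] at this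
  have := Int.isUnit_iff.1 (isUnit_of_dvd_one h1)
  have hp1 := hp.out.one_lt
  omega

theorem lte {p : ℕ} [hp : Fact p.Prime] {a : ℤ} (ha : (p : ℤ) ∣ a - 1)
    (h2 : p = 2 → (4 : ℤ) ∣ a - 1) (n : ℕ) :
    emultiplicity (p : ℤ) (a ^ n - 1) = emultiplicity (p : ℤ) (a - 1) + emultiplicity (p : ℤ) n := by
  have hna := not_dvd ha
  rcases hp.out.eq_two_or_odd' with rfl | hodd
  · have := Int.two_pow_sub_pow' (x := a) (y := 1) n (h2 rfl) (by exact_mod_cast hna)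
    rw [one_pow] at this
    exact_mod_cast this
  · have := Int.emultiplicity_pow_sub_pow hp.out hodd (x := a) (y := 1) ha hna n
    rw [one_pow] at this
    rw [this, Int.natCast_emultiplicity]

theorem gs_mult {p : ℕ} [hp : Fact p.Prime] {a : ℤ} (ha : (p : ℤ) ∣ a - 1)
    (h2 : p = 2 → (4 : ℤ) ∣ a - 1) (n : ℕ) :
    emultiplicity (p : ℤ) (gs a n) = emultiplicity (p : ℤ) (n : ℤ) := by
  by_cases h1 : a = 1
  · subst h1
    congr 1
    simp [gs]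
  · have h3 : gs a n * (a - 1) = a ^ n - 1 := geom_sum_mul a n
    have h4 := lte ha h2 n
    rw [← h3, emultiplicity_mul (Nat.prime_iff_prime_int.1 hp.out), add_comm] at h4
    have h5 : emultiplicity (p : ℤ) (a - 1) ≠ ⊤ := by
      rw [← finiteMultiplicity_iff_emultiplicity_ne_top, Int.finiteMultiplicity_iff]
      refine ⟨?_, sub_ne_zero.2 h1⟩
      rw [Int.natAbs_natCast]
      exact hp.out.one_lt.ne'
    exact (WithTop.add_left_inj h5).1 h4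

theorem gs_add (a : ℤ) (m n : ℕ) : gs a (m + n) = gs a m + a ^ m * gs a n := by
  rw [gs, gs, gs, Finset.sum_range_add, Finset.mul_sum]
  congr 1
  refine Finset.sum_congr rfl fun i _ => ?_
  rw [pow_add]

theorem gs_surj {p : ℕ} [hp : Fact p.Prime] {a : ℤ} (ha : (p : ℤ) ∣ a - 1)
    (h2 : p = 2 → (4 : ℤ) ∣ a - 1) (N : ℕ) (r : ℤ) : ∃ n : ℕ, ((p : ℤ) ^ N) ∣ gs a n - r := by
  have hpos : 0 < p ^ N := pow_pos hp.out.pos N
  have hne : NeZero (p ^ N) := ⟨hpos.ne'⟩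
  have key : ∀ i j : ℕ, i ≤ j → j < p ^ N → ((p : ℤ) ^ N) ∣ gs a j - gs a i → i = j := by
    intro i j hij hj hd
    obtain ⟨k, rfl⟩ := Nat.exists_eq_add_of_le hij
    rw [gs_add, add_sub_cancel_left] at hd
    have hcop : IsCoprime ((p : ℤ) ^ N) (a ^ i) := by
      apply IsCoprime.pow
      exact (Nat.prime_iff_prime_int.1 hp.out).coprime_iff_not_dvd.2 (not_dvd ha)
    have h3 := hcop.dvd_of_dvd_mul_left hd
    rw [pow_dvd_iff_le_emultiplicity, gs_mult ha h2, ← pow_dvd_iff_le_emultiplicity] at h3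
    have h4 : p ^ N ∣ k := by exact_mod_cast h3
    have h5 : k = 0 := Nat.eq_zero_of_dvd_of_lt h4 (by omega)
    omega
  let f : Fin (p ^ N) → ZMod (p ^ N) := fun i => ((gs a i : ℤ) : ZMod (p ^ N))
  have hf : Function.Injective f := by
    intro i j hij
    have h3 : ((p ^ N : ℕ) : ℤ) ∣ gs a j - gs a i := by
      rw [← ZMod.intCast_eq_intCast_iff_dvd_sub]
      exact hij
    push_cast at h3
    rcases le_total (i : ℕ) (j : ℕ) with h | h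
    · exact Fin.ext (key i j h j.2 h3)
    · refine Fin.ext (key j i h i.2 ?_).symm
      rw [← dvd_neg, neg_sub]
      exact h3
  have hb : Function.Bijective f := by
    rw [Fintype.bijective_iff_injective_and_card]
    exact ⟨hf, by rw [Fintype.card_fin, ZMod.card]⟩
  obtain ⟨i, hi⟩ := hb.2 (r : ZMod (p ^ N))
  refine ⟨i, ?_⟩
  have h3 : ((r : ℤ) : ZMod (p ^ N)) = ((gs a i : ℤ) : ZMod (p ^ N)) := hi.symm
  rw [ZMod.intCast_eq_intCast_iff_dvd_sub] at h3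
  push_cast at h3
  exact h3

theorem pow_surj {p : ℕ} [hp : Fact p.Prime] {a b : ℤ} (ha : (p : ℤ) ∣ a - 1)
    (h2 : p = 2 → (4 : ℤ) ∣ a - 1) (N : ℕ) {u : ℤ} (hu : (p : ℤ) ^ N ∣ (b - 1) - (a - 1) * u) :
    ∃ n : ℕ, ((p : ℤ) ^ N) ∣ a ^ n - b := by
  obtain ⟨n, hn⟩ := gs_surj ha h2 N u
  refine ⟨n, ?_⟩
  have h3 : gs a n * (a - 1) = a ^ n - 1 := geom_sum_mul a n
  have : a ^ n - b = (a - 1) * (gs a n - u) - ((b - 1) - (a - 1) * u) := by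
    linear_combination -h3
  rw [this]
  exact dvd_sub (Dvd.dvd.mul_left hn _) hu

theorem total {p : ℕ} [hp : Fact p.Prime] (N : ℕ) (m n : ℤ) :
    (∃ u, (p : ℤ) ^ N ∣ n - m * u) ∨ (∃ u, (p : ℤ) ^ N ∣ m - n * u) := by
  have key : ∀ m n : ℤ, ((Int.gcd m ((p : ℤ) ^ N) : ℕ) : ℤ) ∣ n → ∃ u, (p : ℤ) ^ N ∣ n - m * u := by
    rintro m n ⟨k, hk⟩
    have h1 := Int.gcd_eq_gcd_ab m ((p : ℤ) ^ N)
    refine ⟨Int.gcdA m ((p : ℤ) ^ N) * k, Int.gcdB m ((p : ℤ) ^ N) * k, ?_⟩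
    rw [hk, h1]
    ring
  have hd : ∀ m : ℤ, ∃ s ≤ N, Int.gcd m ((p : ℤ) ^ N) = p ^ s := by
    intro m
    have h1 : Int.gcd m ((p : ℤ) ^ N) ∣ p ^ N := by
      have := Int.gcd_dvd_right m ((p : ℤ) ^ N)
      exact_mod_cast this
    exact (Nat.dvd_prime_pow hp.out).1 h1
  obtain ⟨s, hs, h1⟩ := hd m
  obtain ⟨t, ht, h2⟩ := hd n
  rcases le_total s t with h | h
  · left
    apply key
    rw [h1]
    refine dvd_trans ?_ (h2 ▸ Int.gcd_dvd_left n ((p : ℤ) ^ N))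
    exact_mod_cast pow_dvd_pow p h
  · right
    apply key
    rw [h2]
    refine dvd_trans ?_ (h1 ▸ Int.gcd_dvd_left m ((p : ℤ) ^ N))
    exact_mod_cast pow_dvd_pow p h

section
variable {G : Type*} [Group G]

theorem gen_w [Group.IsNilpotent G] (hc : IsCyclic (commutator G)) {x y : G}
    (h : closure {x, y} = ⊤) {c : G} (hcm : c ∈ commutator G) : ∃ i : ℤ, c = ⁅x, y⁆ ^ i := by
  obtain ⟨⟨g₀, hg₀⟩, hgen⟩ := hc
  have hgen' : ∀ c ∈ commutator G, ∃ i : ℤ, c = g₀ ^ i := by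
    intro c hc
    obtain ⟨i, hi⟩ := hgen ⟨c, hc⟩
    exact ⟨i, (congrArg Subtype.val hi).symm⟩
  have hn : (zpowers ⁅x, y⁆).Normal := by
    constructor
    rintro _ ⟨k, rfl⟩ g
    obtain ⟨m, hm⟩ := hgen' _ (comm_mem x y)
    obtain ⟨l, hl⟩ := hgen' (g * g₀ * g⁻¹) (Normal.conj_mem inferInstance _ hg₀ g)
    refine ⟨l * k, ?_⟩
    show ⁅x, y⁆ ^ (l * k) = g * ⁅x, y⁆ ^ k * g⁻¹
    rw [hm, ← zpow_mul, ← zpow_mul, ← conj_zpow, hl, ← zpow_mul]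
    congr 1
    ring
  have h1 : commutator G ≤ ⁅commutator G, (⊤ : Subgroup G)⁆ ⊔ zpowers ⁅x, y⁆ := by
    rw [sup_comm]
    exact pair_comm h
  obtain ⟨i, hi⟩ := nil_lemma h1 hcm
  exact ⟨i, hi.symm⟩

theorem exists_exp [Group.IsNilpotent G] {p : ℕ} [hp : Fact p.Prime] (hG : IsPGroup p G)
    (hc : IsCyclic (commutator G))
    (h4 : p = 2 → ∀ c ∈ ⁅commutator G, (⊤ : Subgroup G)⁆, ∃ b ∈ commutator G, c = b ^ 4)
    {x y : G} (h : closure {x, y} = ⊤) (g : G) :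
    ∃ a : ℤ, (p : ℤ) ∣ a - 1 ∧ (p = 2 → (4 : ℤ) ∣ a - 1) ∧ g * ⁅x, y⁆ * g⁻¹ = ⁅x, y⁆ ^ a := by
  by_cases hp2 : p = 2
  · subst hp2
    obtain ⟨b, hb, h5⟩ := h4 rfl _ (mem3 (a := g) (comm_mem x y))
    obtain ⟨k, rfl⟩ := gen_w hc h hb
    refine ⟨4 * k + 1, ?_, fun _ => ?_, ?_⟩
    · rw [add_sub_cancel_right]
      exact Dvd.dvd.mul_right (by norm_num) _
    · rw [add_sub_cancel_right]
      exact dvd_mul_right _ _
    · rw [conj_eq, h5, zpow_add, zpow_one, mul_comm 4 k, zpow_mul]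
      congr 1
      exact (zpow_ofNat _ 4).symm
  · obtain ⟨m, hm⟩ := gen_w hc h (comm_mem g ⁅x, y⁆)
    by_cases hpm : (p : ℤ) ∣ m
    · refine ⟨m + 1, by rwa [add_sub_cancel_right], fun h => absurd h hp2, ?_⟩
      rw [conj_eq, hm, zpow_add, zpow_one]
    · have h5 : ⁅x, y⁆ ^ m ∈ ⁅commutator G, (⊤ : Subgroup G)⁆ := hm ▸ mem3 (comm_mem x y)
      have h6 := pow_coprime_mem hG hpm h5
      have h7 : commutator G ≤ ⁅commutator G, (⊤ : Subgroup G)⁆ ⊔ ⊥ := by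
        rw [sup_bot_eq]
        exact (pair_comm h).trans (sup_le (zpowers_le.2 h6) le_rfl)
      have h8 : ⁅x, y⁆ = 1 := mem_bot.1 (nil_lemma h7 (comm_mem x y))
      refine ⟨1, by rw [sub_self]; exact dvd_zero _, fun h => absurd h hp2, ?_⟩
      rw [h8, mul_one, mul_inv_cancel, one_zpow]

theorem zpow_congr {w : G} {p N : ℕ} (hw : w ^ p ^ N = 1) {a b : ℤ} (h : (p : ℤ) ^ N ∣ a - b) :
    w ^ a = w ^ b := by
  obtain ⟨k, hk⟩ := h
  have : a = b + ((p ^ N : ℕ) : ℤ) * k := by push_cast; linarith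
  rw [this, zpow_add, zpow_mul, zpow_natCast, hw, one_zpow, mul_one]

theorem conj_pow_w {x w : G} {a : ℤ} (h : x * w * x⁻¹ = w ^ a) (n : ℕ) :
    x ^ n * w * (x ^ n)⁻¹ = w ^ (a ^ n) := by
  induction n with
  | zero => simp
  | succ n ih =>
    have : x ^ (n + 1) * w * (x ^ (n + 1))⁻¹ = x * (x ^ n * w * (x ^ n)⁻¹) * x⁻¹ := by
      rw [pow_succ']; group
    rw [this, ih, ← conj_zpow, h, ← zpow_mul, pow_succ']

/-- a generating pair whose second member centralises a generator of `γ₂` -/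
theorem good2 {x y w : G} {p N n : ℕ} (h : closure {x, y} = ⊤) {a b : ℤ}
    (hx : x * w * x⁻¹ = w ^ a) (hy : y * w * y⁻¹ = w ^ b) (hw : w ^ p ^ N = 1)
    (hn : (p : ℤ) ^ N ∣ a ^ n - b) : ∃ y', closure {x, y'} = ⊤ ∧ y' * w = w * y' := by
  refine ⟨(x ^ n)⁻¹ * y, ?_, ?_⟩
  · have q1 : x ∈ closure {x, (x ^ n)⁻¹ * y} := subset_closure (Or.inl rfl)
    have q2 : (x ^ n)⁻¹ * y ∈ closure {x, (x ^ n)⁻¹ * y} := subset_closure (Or.inr rfl)
    refine pair_of_mem h q1 ?_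
    have := mul_mem (pow_mem q1 n) q2
    rwa [mul_inv_cancel_left] at this
  · have h1 := conj_pow_w hx n
    rw [zpow_congr hw hn, ← hy] at h1
    have h2 : x ^ n * w * (x ^ n)⁻¹ * y = y * w := by rw [h1]; group
    calc (x ^ n)⁻¹ * y * w = (x ^ n)⁻¹ * (y * w) := by group
      _ = (x ^ n)⁻¹ * (x ^ n * w * (x ^ n)⁻¹ * y) := by rw [h2]
      _ = w * ((x ^ n)⁻¹ * y) := by group

theorem pow_comm_gs {x y : G} {a : ℤ} (h : x * ⁅x, y⁆ * x⁻¹ = ⁅x, y⁆ ^ a) (n : ℕ) :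
    ⁅x ^ n, y⁆ = ⁅x, y⁆ ^ gs a n := by
  induction n with
  | zero => simp [gs]
  | succ n ih =>
    rw [pow_succ', comm_mul_left, ih, ← conj_zpow, h, ← zpow_mul]
    have : gs a (n + 1) = a * gs a n + 1 := by
      rw [add_comm n 1, gs_add]
      simp [gs]
      ring
    rw [this, zpow_add, zpow_one]

theorem pow_comm_cen {x y : G} (h : y * ⁅y, x⁆ = ⁅y, x⁆ * y) (n : ℕ) : ⁅y ^ n, x⁆ = ⁅y, x⁆ ^ n := by
  induction n with
  | zero => simp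
  | succ n ih =>
    rw [pow_succ', comm_mul_left, ih, ((show Commute y _ from h).pow_right n).eq,
      mul_inv_cancel_right, pow_succ]

theorem suff_ii [Finite G] {p : ℕ} [hp : Fact p.Prime] (hG : IsPGroup p G)
    (hc : IsCyclic (commutator G))
    (h4 : p = 2 → ∀ c ∈ ⁅commutator G, (⊤ : Subgroup G)⁆, ∃ b ∈ commutator G, c = b ^ 4)
    {x₀ y₀ : G} (h₀ : closure {x₀, y₀} = ⊤) :
    ∃ x y : G, closure {x, y} = ⊤ ∧ FullAt ![x, y] := by
  have hnil : Group.IsNilpotent G := hG.isNilpotent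
  obtain ⟨a, ha, ha2, hax⟩ := exists_exp hG hc h4 h₀ x₀
  obtain ⟨b, hb, hb2, hby⟩ := exists_exp hG hc h4 h₀ y₀
  obtain ⟨N, hN⟩ := hG ⁅x₀, y₀⁆
  obtain ⟨x, y, hxy, hyw⟩ : ∃ x y : G, closure {x, y} = ⊤ ∧ y * ⁅x₀, y₀⁆ = ⁅x₀, y₀⁆ * y := by
    rcases total (p := p) N (a - 1) (b - 1) with ⟨u, hu⟩ | ⟨u, hu⟩
    · obtain ⟨n, hn⟩ := pow_surj ha ha2 N hu
      obtain ⟨y', h1, h2⟩ := good2 h₀ hax hby hN hn
      exact ⟨x₀, y', h1, h2⟩
    · obtain ⟨n, hn⟩ := pow_surj hb hb2 N hu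
      obtain ⟨y', h1, h2⟩ := good2 (pair_swap h₀) hby hax hN hn
      exact ⟨y₀, y', h1, h2⟩
  refine ⟨x, y, hxy, ?_⟩
  have hyc : ∀ c ∈ commutator G, y * c = c * y := by
    intro c hcm
    obtain ⟨i, rfl⟩ := gen_w hc h₀ hcm
    exact ((show Commute y _ from hyw).zpow_right i)
  obtain ⟨e, he, he2, hex⟩ := exists_exp hG hc h4 hxy x
  obtain ⟨M, hM⟩ := hG ⁅x, y⁆
  intro c hcm
  obtain ⟨r, hr⟩ := gen_w hc hxy (hcm 1)
  obtain ⟨n, hn⟩ := gs_surj he he2 M r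
  have h1 : ⁅x ^ n, y⁆ = c 1 := by
    rw [pow_comm_gs hex, hr]
    exact zpow_congr hM hn
  obtain ⟨s, hs⟩ := gen_w hc (pair_swap hxy)
    (Normal.conj_mem inferInstance _ (hcm 0) (x ^ n)⁻¹ : (x ^ n)⁻¹ * c 0 * (x ^ n)⁻¹⁻¹ ∈ commutator G)
  obtain ⟨j, hj⟩ := nat_pow ⁅y, x⁆ s
  have h2 : ⁅y ^ j, x⁆ = (x ^ n)⁻¹ * c 0 * (x ^ n)⁻¹⁻¹ := by
    rw [hs, hj, pow_comm_cen (hyc _ (comm_mem _ _))]
  refine ⟨MulAut.conj (x ^ n * y ^ j), conj_mem _, fun i => ?_⟩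
  rw [MulAut.conj_apply, conj_eq]
  congr 1
  fin_cases i
  · show ⁅x ^ n * y ^ j, x⁆ = c 0
    rw [comm_mul_left, h2]
    have : ⁅x ^ n, x⁆ = 1 := by
      rw [commutatorElement_eq_one_iff_mul_comm]
      exact (Commute.refl x).pow_left n
    rw [this]
    group
  · show ⁅x ^ n * y ^ j, y⁆ = c 1
    rw [comm_mul_left, h1]
    have : ⁅y ^ j, y⁆ = 1 := by
      rw [commutatorElement_eq_one_iff_mul_comm]
      exact (Commute.refl y).pow_left j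
    rw [this]
    group

end

end Pool.Agent.Run7.h179.AC
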